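import Pool.Agent.MP_f8e15f_co.H24.Defs

namespace Pool.Agent.MP_f8e15f_co.H24

open Equiv

variable {F : Type} [Field F]

/-- The permutation `z ↦ a σ(z) + b`. -/
noncomputable def mkP (a : F) (ha : a ≠ 0) (b : F) (σ : F ≃+* F) : Perm F :=
  σ.toEquiv.trans ((Equiv.mulLeft₀ a ha).trans (Equiv.addRight b))

@[simp] theorem mkP_apply (a : F) (ha : a ≠ 0) (b : F) (σ : F ≃+* F) (z : F) :
    mkP a ha b σ z = a * σ z + b := rfl

theorem mkP_semi (a : F) (ha : a ≠ 0) (b : F) (σ : F ≃+* F) : IsSemiAffine (mkP a ha b σ) :=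
  ⟨a, b, σ, fun _ => rfl⟩

theorem mult_ne_zero {g : Perm F} {a b : F} {σ : F ≃+* F} (h : ∀ x, g x = a * σ x + b) :
    a ≠ 0 := by
  rintro rfl
  have : g 0 = g 1 := by rw [h, h]; simp
  exact zero_ne_one (g.injective this)

theorem img_mul (g h : Perm F) (B : Set F) : (g * h) '' B = g '' (h '' B) := by
  rw [Set.image_image]; rfl

theorem img_inv (g : Perm F) (B : Set F) : (g⁻¹ : Perm F) '' (g '' B) = B := by
  rw [← img_mul]; simp

theorem img_inv' (g : Perm F) (B : Set F) : g '' ((g⁻¹ : Perm F) '' B) = B := by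
  rw [← img_mul]; simp

theorem img_inj (g : Perm F) {B C : Set F} (h : g '' B = g '' C) : B = C :=
  Set.image_injective.mpr g.injective h

/-- The semilinear affine maps preserving `D`, as a monoid. -/
def AutM (D : Set (Set F)) : Submonoid (Perm F) where
  carrier := {g | IsSemiAffine g ∧ ∀ B ∈ D, g '' B ∈ D}
  one_mem' := ⟨⟨1, 0, RingEquiv.refl F, fun x => by simp⟩, fun B hB => by simpa using hB⟩
  mul_mem' := by
    rintro g h ⟨⟨a, b, σ, hg⟩, hg2⟩ ⟨⟨a', b', σ', hh⟩, hh2⟩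
    refine ⟨⟨a * σ a', a * σ b' + b, σ'.trans σ, fun x => ?_⟩, fun B hB => ?_⟩
    · rw [Perm.mul_apply, hg, hh]; simp; ring
    · rw [img_mul]; exact hg2 _ (hh2 _ hB)

/-- The semilinear affine maps preserving `D`, as a group. -/
def AutG [Finite F] (D : Set (Set F)) : Subgroup (Perm F) where
  toSubmonoid := AutM D
  inv_mem' := by
    intro g hg
    have h1 : 0 < orderOf g := orderOf_pos g
    have : g⁻¹ = g ^ (orderOf g - 1) := by
      rw [inv_eq_iff_mul_eq_one, ← pow_succ', Nat.sub_add_cancel h1, pow_orderOf_eq_one]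
    rw [this]
    exact (AutM D).pow_mem hg _

variable [Finite F]

theorem mem_AutG {D : Set (Set F)} {g : Perm F} :
    g ∈ AutG D ↔ IsSemiAffine g ∧ ∀ B ∈ D, g '' B ∈ D := Iff.rfl

theorem AutG_image {D : Set (Set F)} {g : Perm F} (hg : g ∈ AutG D) :
    (fun B : Set F => g '' B) '' D = D := by
  apply Set.Subset.antisymm
  · rintro _ ⟨B, hB, rfl⟩; exact hg.2 B hB
  · intro B hB
    exact ⟨_, ((AutG D).inv_mem hg).2 B hB, img_inv' g B⟩

theorem PT_up {D : Set (Set F)} {G : Subgroup (Perm F)} (hG : ∀ g ∈ G, IsSemiAffine g)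
    (h : PairwiseTransitive G D) : PairwiseTransitive (AutG D) D := by
  obtain ⟨h0, h1, h2, h3, h4, h5, h6⟩ := h
  have hle : ∀ g ∈ G, g ∈ AutG D := fun g hg =>
    ⟨hG g hg, fun B hB => by rw [← h0 g hg]; exact ⟨B, hB, rfl⟩⟩
  refine ⟨fun g hg => AutG_image hg, ?_, ?_, ?_, ?_, ?_, ?_⟩
  · intro x y x' y' a b c d
    obtain ⟨g, hg, e⟩ := h1 x y x' y' a b c d; exact ⟨g, hle g hg, e⟩
  · intro x y x' y' a b c d
    obtain ⟨g, hg, e⟩ := h2 x y x' y' a b c d; exact ⟨g, hle g hg, e⟩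
  · intro x x' B hB B' hB' a b
    obtain ⟨g, hg, e⟩ := h3 x x' B hB B' hB' a b; exact ⟨g, hle g hg, e⟩
  · intro x x' B hB B' hB' a b
    obtain ⟨g, hg, e⟩ := h4 x x' B hB B' hB' a b; exact ⟨g, hle g hg, e⟩
  · intro B hB C hC B' hB' C' hC' a b c d
    obtain ⟨g, hg, e⟩ := h5 B hB C hC B' hB' C' hC' a b c d; exact ⟨g, hle g hg, e⟩
  · intro B hB C hC B' hB' C' hC' a b c d
    obtain ⟨g, hg, e⟩ := h6 B hB C hC B' hB' C' hC' a b c d; exact ⟨g, hle g hg, e⟩

section field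
variable {p d : ℕ} [Fact p.Prime] [CharP F p]

/-- Ring automorphisms of a finite field are the automorphisms over the prime field. -/
noncomputable def autEquiv (F : Type) [Field F] (p : ℕ) [Fact p.Prime] [Algebra (ZMod p) F] :
    (F ≃+* F) ≃ (F ≃ₐ[ZMod p] F) where
  toFun σ := AlgEquiv.ofRingEquiv (f := σ) (fun x =>
    RingHom.congr_fun (RingHom.ext_zmod (σ.toRingHom.comp (algebraMap (ZMod p) F))
      (algebraMap (ZMod p) F)) x)
  invFun g := g.toRingEquiv
  left_inv _ := rfl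
  right_inv _ := rfl

theorem finrank_eq (hq : Nat.card F = p ^ d) [Algebra (ZMod p) F] :
    Module.finrank (ZMod p) F = d := by
  have := FiniteField.pow_finrank_eq_natCard p F
  rw [hq] at this
  exact Nat.pow_right_injective (Fact.out : p.Prime).two_le this

theorem card_aut (hq : Nat.card F = p ^ d) : Nat.card (F ≃+* F) = d := by
  letI : Algebra (ZMod p) F := ZMod.algebra F p
  rw [Nat.card_congr (autEquiv F p), IsGalois.card_aut_eq_finrank, finrank_eq hq]

theorem frob_pow (hq : Nat.card F = p ^ d) (σ : F ≃+* F) :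
    ∃ j < d, ∀ x, σ x = x ^ p ^ j := by
  letI : Algebra (ZMod p) F := ZMod.algebra F p
  obtain ⟨j, hj⟩ := (FiniteField.bijective_frobeniusAlgEquivOfAlgebraic_pow (ZMod p) F).2
    (autEquiv F p σ)
  refine ⟨j.1, finrank_eq hq ▸ j.2, fun x => ?_⟩
  have := AlgEquiv.congr_fun hj x
  simp only [AlgEquiv.coe_pow, FiniteField.coe_frobeniusAlgEquivOfAlgebraic_iterate,
    ZMod.card] at this
  exact this.symm

theorem card_lin (hq : Nat.card F = p ^ d) (H : Subgroup (Perm F))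
    (hH : ∀ g ∈ H, ∃ (a : F) (σ : F ≃+* F), ∀ z, g z = a * σ z) :
    ∃ t, t ∣ d ∧ Nat.card H = Nat.card (H.comap (MulAction.toPermHom Fˣ F)) * t ∧
      (t = d → ∀ σ : F ≃+* F, ∃ g ∈ H, ∃ a : F, ∀ z, g z = a * σ z) := by
  choose a σ hs using hH
  have ha : ∀ g hg, a g hg ≠ 0 := fun g hg =>
    mult_ne_zero (g := g) (b := 0) (σ := σ g hg) (fun x => by rw [hs g hg x]; simp)
  have uniq : ∀ g hg (b : F) (τ : F ≃+* F), (∀ z, g z = b * τ z) → σ g hg = τ := by
    intro g hg b τ h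
    have h1 : a g hg = b := by have := (hs g hg 1).symm.trans (h 1); simpa using this
    ext z
    have := (hs g hg z).symm.trans (h z)
    rw [← h1] at this
    exact mul_left_cancel₀ (ha g hg) this
  let φ : H →* RingAut F := MonoidHom.mk' (fun g => σ g.1 g.2) (fun g h => by
    apply uniq _ _ (a g.1 g.2 * σ g.1 g.2 (a h.1 h.2))
    intro z
    change g.1 (h.1 z) = _ * σ g.1 g.2 (σ h.1 h.2 z)
    rw [hs g.1 g.2, hs h.1 h.2, map_mul, mul_assoc])
  have hc : Nat.card (RingAut F) = d := card_aut hq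
  haveI : Finite (RingAut F) := by
    letI : Algebra (ZMod p) F := ZMod.algebra F p
    exact Finite.of_equiv _ (autEquiv F p).symm
  refine ⟨Nat.card φ.range, hc ▸ Subgroup.card_subgroup_dvd_card _, ?_, ?_⟩
  · rw [← φ.ker.card_mul_index, Subgroup.index_ker]
    congr 1
    symm
    refine Nat.card_congr (Equiv.ofBijective
      (fun u => ⟨⟨MulAction.toPermHom Fˣ F u.1, u.2⟩, ?_⟩) ⟨?_, ?_⟩)
    · exact uniq _ u.2 (u.1 : F) (RingEquiv.refl F) (fun z => rfl)
    · intro u v h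
      have h1 : MulAction.toPermHom Fˣ F u.1 1 = MulAction.toPermHom Fˣ F v.1 1 :=
        congrArg (fun x : φ.ker => (x.1.1 : Perm F) 1) h
      apply Subtype.ext; apply Units.ext
      simpa [Units.smul_def] using h1
    · rintro ⟨⟨g, hg⟩, hk⟩
      have hk' : σ g hg = RingEquiv.refl F := hk
      have e : MulAction.toPermHom Fˣ F (Units.mk0 (a g hg) (ha g hg)) = g := by
        ext z
        rw [hs g hg z, hk']; rfl
      refine ⟨⟨Units.mk0 (a g hg) (ha g hg), ?_⟩, ?_⟩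
      · rw [Subgroup.mem_comap, e]; exact hg
      · apply Subtype.ext; apply Subtype.ext; exact e
  · intro ht τ
    have : φ.range = ⊤ := Subgroup.eq_top_of_card_eq _ (ht.trans hc.symm)
    have h1 : (τ : RingAut F) ∈ φ.range := this ▸ Subgroup.mem_top _
    obtain ⟨g, hg⟩ := h1
    refine ⟨g.1, g.2, a g.1 g.2, fun z => ?_⟩
    rw [hs g.1 g.2]
    have : σ g.1 g.2 = τ := hg
    rw [this]

theorem root_lemma (hq : Nat.card F = p ^ d) {η : F} {l : ℕ} (hη : IsPrimitiveRoot η l)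
    (hl : 0 < l)
    (h : ∀ i i' : ℕ, η ^ i ≠ 1 → η ^ i' ≠ 1 → ∃ σ : F ≃+* F, σ (η ^ i) = η ^ i') :
    (l = 1 ∨ l.Prime) ∧ l - 1 ≤ d := by
  by_cases h1 : l = 1
  · exact ⟨Or.inl h1, by omega⟩
  have hl2 : 2 ≤ l := by omega
  have hne : ∀ i, 0 < i → i < l → η ^ i ≠ 1 := fun i hi hil he =>
    absurd (Nat.le_of_dvd hi ((hη.pow_eq_one_iff_dvd i).mp he)) (by omega)
  refine ⟨Or.inr ?_, ?_⟩
  · rw [Nat.prime_def_lt]
    refine ⟨hl2, fun m hm ⟨m', hm'⟩ => ?_⟩
    by_contra hm1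
    have hm0 : 0 < m := Nat.pos_of_ne_zero (by rintro rfl; simp at hm'; omega)
    have hm'0 : 0 < m' := Nat.pos_of_ne_zero (by rintro rfl; simp at hm'; omega)
    obtain ⟨σ, hσ⟩ := h m 1 (hne m hm0 hm) (hne 1 one_pos (by omega))
    have h2 : η ^ m' = 1 := by
      have : (η ^ 1) ^ m' = 1 := by
        rw [← hσ, ← map_pow, ← pow_mul, ← hm', hη.pow_eq_one, map_one]
      simpa using this
    have h3 : m' < l := by
      rw [hm']; have : 2 ≤ m := by omega
      nlinarith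
    exact hne m' hm'0 h3 h2
  · have : ∀ i ∈ Finset.Ico 1 l, ∃ j ∈ Finset.range d, η ^ p ^ j = η ^ i := by
      intro i hi
      rw [Finset.mem_Ico] at hi
      obtain ⟨σ, hσ⟩ := h 1 i (hne 1 one_pos (by omega)) (hne i (by omega) hi.2)
      obtain ⟨j, hj, e⟩ := frob_pow hq σ
      exact ⟨j, Finset.mem_range.mpr hj, by rw [← hσ, e, pow_one]⟩
    choose! f hf1 hf2 using this
    have := Finset.card_le_card_of_injOn f hf1 (fun i hi i' hi' e => by
      have hi1 := Finset.mem_Ico.mp (Finset.mem_coe.mp hi)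
      have hi2 := Finset.mem_Ico.mp (Finset.mem_coe.mp hi')
      apply hη.pow_inj hi1.2 hi2.2
      rw [← hf2 i hi, ← hf2 i' hi', e])
    simpa using this

end field

theorem mem_iff_pow (C : Subgroup Fˣ) (u : Fˣ) : u ∈ C ↔ u ^ Nat.card C = 1 := by
  haveI : NeZero (Nat.card C) := ⟨Nat.card_pos.ne'⟩
  have hle : C ≤ rootsOfUnity (Nat.card C) F := fun v hv => by
    rw [mem_rootsOfUnity]
    have := pow_card_eq_one' (x := (⟨v, hv⟩ : C))
    exact congrArg Subtype.val this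
  have : C = rootsOfUnity (Nat.card C) F :=
    Subgroup.eq_of_le_of_card_ge hle (card_rootsOfUnity F _)
  rw [← mem_rootsOfUnity, ← this]

theorem orbit_dvd {G X : Type} [Group G] [MulAction G X] (x : X) (Y : Set X)
    (h : ∀ y, y ∈ Y ↔ ∃ g : G, g • x = y) : Y.ncard ∣ Nat.card G := by
  have : Y = MulAction.orbit G x := by ext y; rw [h]; rfl
  rw [this, ← MulAction.index_stabilizer]
  exact Subgroup.index_dvd_card _

theorem orbit_le {G X : Type} [Group G] [Finite G] [MulAction G X] (Y : Set X)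
    (h : ∀ x ∈ Y, ∀ y ∈ Y, ∃ g : G, g • x = y) : Y.ncard ≤ Nat.card G := by
  rcases Y.eq_empty_or_nonempty with rfl | ⟨x, hx⟩
  · simp
  calc Y.ncard ≤ (MulAction.orbit G x).ncard :=
        Set.ncard_le_ncard (fun y hy => h x hx y hy) (Set.finite_range _)
    _ ≤ Nat.card G := Nat.le_of_dvd Nat.card_pos (orbit_dvd x _ (fun _ => Iff.rfl))

end Pool.Agent.MP_f8e15f_co.H24
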