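import Pool.Agent.MP_f8e15f_co.H24.Fwd3

namespace Pool.Agent.MP_f8e15f_co.H24

open Equiv Pointwise

variable {F : Type} [Field F] [Finite F]

theorem A0_add {L : Set (Set F)} {g : Perm F} (hg : g ∈ A0 L) (x y : F) :
    g (x + y) = g x + g y := by
  obtain ⟨a, σ, h⟩ := A0_lin hg
  rw [h, h, h, map_add, mul_add]

theorem A0_sub {L : Set (Set F)} {g : Perm F} (hg : g ∈ A0 L) (x y : F) :
    g (x - y) = g x - g y := by
  obtain ⟨a, σ, h⟩ := A0_lin hg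
  rw [h, h, h, map_sub, mul_sub]

theorem A0_tr {L : Set (Set F)} {g : Perm F} (hg : g ∈ A0 L) (t : F) (B : Set F) :
    g '' (tr t '' B) = tr (g t) '' (g '' B) := by
  rw [Set.image_image, Set.image_image]
  congr 1; ext z; simp [A0_add hg]

theorem conv_lin {L : Set (Set F)} {M1 : Set F} (hM1 : M1 ∈ L)
    (zero : (0 : F) ∈ M1) (add : ∀ x ∈ M1, ∀ y ∈ M1, x + y ∈ M1) (neg : ∀ x ∈ M1, -x ∈ M1)
    (T0 : ∀ M ∈ L, M ≠ M1 → ∀ z, ∃ x ∈ M, ∃ x' ∈ M1, z = x + x')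
    (T1 : ∀ M ∈ L, ∃ g ∈ A0 L, g '' M1 = M)
    (T2 : ∀ M ∈ L, ∀ M' ∈ L, M ≠ M1 → M' ≠ M1 → ∃ g ∈ A0 L, g '' M1 = M1 ∧ g '' M = M')
    (T3 : ∀ x y, x ∉ M1 → y ∉ M1 → ∃ g ∈ A0 L, g '' M1 = M1 ∧ g x - y ∈ M1)
    (T4 : ∀ x ∈ M1, ∀ y ∈ M1, x ≠ 0 → y ≠ 0 → ∃ g ∈ A0 L, g x = y)
    (T5 : ∀ x y, (∀ M ∈ L, x ∉ M) → (∀ M ∈ L, y ∉ M) → ∃ g ∈ A0 L, g x = y)
    (three : 3 ≤ L.ncard) {D : Set (Set F)} (hD : ∀ B, B ∈ D ↔ ∃ M ∈ L, ∃ y, B = tr y '' M) :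
    ∃ k r, IsOneDesign D k r ∧ 3 ≤ r ∧ PairwiseTransitive (AutG D) D := by
  have hL : ∀ g ∈ A0 L, ∀ M ∈ L, g '' M ∈ L := fun g hg => hg.1.2
  have h0 : ∀ g ∈ A0 L, g 0 = 0 := fun g hg => hg.2
  have zero' : ∀ M ∈ L, (0 : F) ∈ M := by
    intro M hM
    obtain ⟨g, hg, rfl⟩ := T1 M hM
    exact ⟨0, zero, h0 g hg⟩
  have add' : ∀ M ∈ L, ∀ x ∈ M, ∀ y ∈ M, x + y ∈ M := by
    intro M hM
    obtain ⟨g, hg, rfl⟩ := T1 M hM
    rintro _ ⟨x, hx, rfl⟩ _ ⟨y, hy, rfl⟩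
    exact ⟨x + y, add x hx y hy, A0_add hg x y⟩
  have neg' : ∀ M ∈ L, ∀ x ∈ M, -x ∈ M := by
    intro M hM
    obtain ⟨g, hg, rfl⟩ := T1 M hM
    rintro _ ⟨x, hx, rfl⟩
    refine ⟨-x, neg x hx, ?_⟩
    rw [← zero_sub, A0_sub hg, h0 g hg, zero_sub]
  have hfix : ∀ M ∈ L, ∀ w ∈ M, tr w '' M = M := by
    intro M hM w hw
    ext z
    constructor
    · rintro ⟨x, hx, rfl⟩; exact add' M hM x hx w hw
    · intro hz; exact ⟨z + -w, add' M hM z hz _ (neg' M hM w hw), by simp⟩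
  have hre : ∀ M ∈ L, ∀ y x, x ∈ tr y '' M → tr y '' M = tr x '' M := by
    rintro M hM y _ ⟨w, hw, rfl⟩
    rw [tr_apply, ← tr_tr, hfix M hM w hw]
  have hA : ∀ g ∈ A0 L, g ∈ AutG D := by
    intro g hg
    refine ⟨hg.1.1, fun B hB => ?_⟩
    obtain ⟨M, hM, y, rfl⟩ := (hD B).mp hB
    rw [A0_tr hg]
    exact (hD _).mpr ⟨_, hL g hg M hM, _, rfl⟩
  have hT : ∀ b, tr b ∈ AutG D := by
    intro b
    refine ⟨⟨1, b, RingEquiv.refl F, fun x => by simp⟩, fun B hB => ?_⟩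
    obtain ⟨M, hM, y, rfl⟩ := (hD B).mp hB
    rw [tr_tr]
    exact (hD _).mpr ⟨_, hM, _, rfl⟩
  have hG : ∀ f ∈ A0 L, ∀ x x', tr x' * f * tr (-x) ∈ AutG D := fun f hf x x' =>
    (AutG D).mul_mem ((AutG D).mul_mem (hT _) (hA f hf)) (hT _)
  have hG1 : ∀ f : Perm F, ∀ x x' y, (tr x' * f * tr (-x)) y = f (y - x) + x' := by
    intro f x x' y; simp [sub_eq_add_neg]
  have hG2 : ∀ f ∈ A0 L, ∀ x x' y (M : Set F), (tr x' * f * tr (-x) : Perm F) '' (tr y '' M) =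
      tr (f (y - x) + x') '' (f '' M) := by
    intro f hf x x' y M
    rw [img_mul, img_mul, tr_tr, A0_tr hf, tr_tr, sub_eq_add_neg]
  have S0 : ∀ M ∈ L, ∀ M' ∈ L, M ≠ M' → ∀ z, ∃ x ∈ M, ∃ x' ∈ M', z = x + x' := by
    intro M hM M' hM' hne z
    obtain ⟨g, hg, rfl⟩ := T1 M' hM'
    obtain ⟨x, hx, x', hx', e⟩ := T0 _ (hL _ ((A0 L).inv_mem hg) M hM)
      (fun e => hne (by rw [← e, img_inv'])) ((g⁻¹ : Perm F) z)
    refine ⟨g x, ?_, g x', ⟨x', hx', rfl⟩, by rw [← A0_add hg, ← e]; simp⟩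
    rw [← img_inv' g M]; exact ⟨x, hx, rfl⟩
  have S2 : ∀ M ∈ L, ∀ N ∈ L, ∀ M' ∈ L, ∀ N' ∈ L, M ≠ N → M' ≠ N' →
      ∃ g ∈ A0 L, g '' M = M' ∧ g '' N = N' := by
    intro M hM N hN M' hM' N' hN' h1 h2
    obtain ⟨g, hg, rfl⟩ := T1 M hM
    obtain ⟨g', hg', rfl⟩ := T1 M' hM'
    obtain ⟨f, hf, e1, e2⟩ := T2 _ (hL _ ((A0 L).inv_mem hg) N hN) _
      (hL _ ((A0 L).inv_mem hg') N' hN') (fun e => h1 (by rw [← e, img_inv']))
      (fun e => h2 (by rw [← e, img_inv']))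
    refine ⟨g' * f * g⁻¹, (A0 L).mul_mem ((A0 L).mul_mem hg' hf) ((A0 L).inv_mem hg), ?_, ?_⟩
    · rw [img_mul, img_mul, img_inv, e1]
    · rw [img_mul, img_mul, e2, img_inv']
  have S3 : ∀ M ∈ L, ∀ M' ∈ L, ∀ x y, x ∉ M → y ∉ M' →
      ∃ g ∈ A0 L, g '' M = M' ∧ g x - y ∈ M' := by
    intro M hM M' hM' x y hx hy
    obtain ⟨g, hg, rfl⟩ := T1 M hM
    obtain ⟨g', hg', rfl⟩ := T1 M' hM'
    obtain ⟨f, hf, e1, e2⟩ := T3 ((g⁻¹ : Perm F) x) ((g'⁻¹ : Perm F) y)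
      (fun e => hx ⟨_, e, by simp⟩) (fun e => hy ⟨_, e, by simp⟩)
    refine ⟨g' * f * g⁻¹, (A0 L).mul_mem ((A0 L).mul_mem hg' hf) ((A0 L).inv_mem hg), ?_, ?_⟩
    · rw [img_mul, img_mul, img_inv, e1]
    · exact ⟨_, e2, by rw [A0_sub hg']; simp⟩
  have S4 : ∀ M ∈ L, ∀ M' ∈ L, ∀ x ∈ M, ∀ y ∈ M', x ≠ 0 → y ≠ 0 → ∃ g ∈ A0 L, g x = y := by
    intro M hM M' hM'
    obtain ⟨g, hg, rfl⟩ := T1 M hM
    obtain ⟨g', hg', rfl⟩ := T1 M' hM'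
    rintro _ ⟨x, hx, rfl⟩ _ ⟨y, hy, rfl⟩ n1 n2
    obtain ⟨f, hf, e⟩ := T4 x hx y hy (by rintro rfl; exact n1 (h0 g hg))
      (by rintro rfl; exact n2 (h0 g' hg'))
    exact ⟨g' * f * g⁻¹, (A0 L).mul_mem ((A0 L).mul_mem hg' hf) ((A0 L).inv_mem hg),
      by simp [e]⟩
  have hcoll : ∀ x y, Coll D x y ↔ ∃ M ∈ L, y - x ∈ M := by
    intro x y
    constructor
    · rintro ⟨B, hB, hx, hy⟩
      obtain ⟨M, hM, w, rfl⟩ := (hD B).mp hB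
      rw [hre M hM w x hx] at hy
      obtain ⟨u, hu, rfl⟩ := hy
      exact ⟨M, hM, by simpa using hu⟩
    · rintro ⟨M, hM, h⟩
      exact ⟨_, (hD _).mpr ⟨M, hM, x, rfl⟩, ⟨0, zero' M hM, by simp⟩, ⟨_, h, by simp⟩⟩
  have hanti : ∀ M ∈ L, ∀ x y, x ∉ tr y '' M → y - x ∉ M := fun M hM x y h1 h2 =>
    h1 ⟨_, neg' M hM _ h2, by simp⟩
  have hsh : ∀ M ∈ L, ∀ a x y, a - (y - x) ∈ M → tr (a + x) '' M = tr y '' M := by
    intro M hM a x y h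
    rw [show a + x = (a - (y - x)) + y by ring, ← tr_tr, hfix M hM _ h]
  refine ⟨M1.ncard, L.ncard, ⟨?_, ?_⟩, three, fun g hg => AutG_image hg, ?_, ?_, ?_, ?_, ?_, ?_⟩
  · intro B hB
    obtain ⟨M, hM, y, rfl⟩ := (hD B).mp hB
    obtain ⟨g, hg, rfl⟩ := T1 M hM
    rw [Set.ncard_image_of_injective _ (tr y).injective,
      Set.ncard_image_of_injective _ g.injective]
  · intro x
    have : {B | B ∈ D ∧ x ∈ B} = (fun M : Set F => tr x '' M) '' L := by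
      ext B
      constructor
      · rintro ⟨hB, hx⟩
        obtain ⟨M, hM, y, rfl⟩ := (hD B).mp hB
        exact ⟨M, hM, (hre M hM y x hx).symm⟩
      · rintro ⟨M, hM, rfl⟩
        exact ⟨(hD _).mpr ⟨M, hM, x, rfl⟩, 0, zero' M hM, by simp⟩
    rw [this, Set.ncard_image_of_injective _ (fun _ _ e => img_inj (tr x) e)]
  · intro x y x' y' n1 n2 c1 c2
    obtain ⟨M, hM, a1⟩ := (hcoll x y).mp c1
    obtain ⟨M', hM', a2⟩ := (hcoll x' y').mp c2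
    obtain ⟨f, hf, e⟩ := S4 M hM M' hM' _ a1 _ a2 (sub_ne_zero.mpr n1.symm)
      (sub_ne_zero.mpr n2.symm)
    exact ⟨_, hG f hf x x', by simp [hG1, h0 f hf], by rw [hG1, e]; simp⟩
  · intro x y x' y' _ _ c1 c2
    obtain ⟨f, hf, e⟩ := T5 (y - x) (y' - x') (fun M hM h => c1 ((hcoll x y).mpr ⟨M, hM, h⟩))
      (fun M hM h => c2 ((hcoll x' y').mpr ⟨M, hM, h⟩))
    exact ⟨_, hG f hf x x', by simp [hG1, h0 f hf], by rw [hG1, e]; simp⟩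
  · intro x x' B hB B' hB' a1 a2
    obtain ⟨M, hM, y, rfl⟩ := (hD B).mp hB
    obtain ⟨M', hM', y', rfl⟩ := (hD B').mp hB'
    obtain ⟨g, hg, e1⟩ := T1 M hM
    obtain ⟨g', hg', e2⟩ := T1 M' hM'
    have hf := (A0 L).mul_mem hg' ((A0 L).inv_mem hg)
    refine ⟨_, hG _ hf x x', by rw [hG1, sub_self, h0 _ hf, zero_add], ?_⟩
    rw [hre M hM y x a1, hre M' hM' y' x' a2, hG2 _ hf, sub_self, h0 _ hf, zero_add, ← e1, ← e2,
      img_mul, img_inv]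
  · intro x x' B hB B' hB' a1 a2
    obtain ⟨M, hM, y, rfl⟩ := (hD B).mp hB
    obtain ⟨M', hM', y', rfl⟩ := (hD B').mp hB'
    obtain ⟨f, hf, e1, e2⟩ := S3 M hM M' hM' _ _ (hanti M hM x y a1) (hanti M' hM' x' y' a2)
    refine ⟨_, hG _ hf x x', by rw [hG1, sub_self, h0 _ hf, zero_add], ?_⟩
    rw [hG2 _ hf, e1, hsh M' hM' _ _ _ e2]
  · rintro B hB C hC B' hB' C' hC' n1 n2 ⟨z, z1, z2⟩ ⟨z', z1', z2'⟩
    obtain ⟨M, hM, y, rfl⟩ := (hD B).mp hB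
    obtain ⟨N, hN, w, rfl⟩ := (hD C).mp hC
    obtain ⟨M', hM', y', rfl⟩ := (hD B').mp hB'
    obtain ⟨N', hN', w', rfl⟩ := (hD C').mp hC'
    rw [hre M hM y z z1, hre N hN w z z2] at n1 ⊢
    rw [hre M' hM' y' z' z1', hre N' hN' w' z' z2'] at n2 ⊢
    obtain ⟨f, hf, e1, e2⟩ := S2 M hM N hN M' hM' N' hN' (by rintro rfl; exact n1 rfl)
      (by rintro rfl; exact n2 rfl)
    refine ⟨_, hG _ hf z z', ?_, ?_⟩
    · rw [hG2 _ hf, sub_self, h0 _ hf, zero_add, e1]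
    · rw [hG2 _ hf, sub_self, h0 _ hf, zero_add, e2]
  · intro B hB C hC B' hB' C' hC' _ _ d1 d2
    have key : ∀ M ∈ L, ∀ N ∈ L, ∀ y w, Disjoint (tr y '' M) (tr w '' N) → M = N ∧ w - y ∉ M := by
      intro M hM N hN y w hd
      have e : M = N := by
        by_contra hne
        obtain ⟨x, hx, x', hx', e⟩ := S0 M hM N hN hne (w - y)
        exact Set.disjoint_left.mp hd ⟨x, hx, rfl⟩
          ⟨-x', neg' N hN x' hx', by simp only [tr_apply]; linear_combination e⟩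
      subst e
      exact ⟨rfl, hanti M hM y w (Set.disjoint_left.mp hd ⟨0, zero' M hM, by simp⟩)⟩
    obtain ⟨M, hM, y, rfl⟩ := (hD B).mp hB
    obtain ⟨N, hN, w, rfl⟩ := (hD C).mp hC
    obtain ⟨M', hM', y', rfl⟩ := (hD B').mp hB'
    obtain ⟨N', hN', w', rfl⟩ := (hD C').mp hC'
    obtain ⟨rfl, a1⟩ := key M hM N hN y w d1
    obtain ⟨rfl, a2⟩ := key M' hM' N' hN' y' w' d2
    obtain ⟨f, hf, e1, e2⟩ := S3 M hM M' hM' _ _ a1 a2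
    refine ⟨_, hG _ hf y y', ?_, ?_⟩
    · rw [hG2 _ hf, sub_self, h0 _ hf, zero_add, e1]
    · rw [hG2 _ hf, e1, hsh M' hM' _ _ _ e2]

theorem conv_complete (h4 : 4 ≤ Nat.card F) {D : Set (Set F)} (hD : D = {B | ∃ x, B = {x}ᶜ}) :
    ∃ k r, IsOneDesign D k r ∧ 3 ≤ r ∧ PairwiseTransitive (AutG D) D := by
  have himg : ∀ (g : Perm F) (x : F), g '' {x}ᶜ = {g x}ᶜ := fun g x => by
    rw [Set.image_compl_eq g.bijective, Set.image_singleton]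
  have hA : ∀ g : Perm F, IsSemiAffine g → g ∈ AutG D := by
    intro g hg
    refine ⟨hg, ?_⟩
    rw [hD]
    rintro _ ⟨x, rfl⟩
    exact ⟨_, himg g x⟩
  have two : ∀ x y x' y' : F, x ≠ y → x' ≠ y' → ∃ g ∈ AutG D, g x = x' ∧ g y = y' := by
    intro x y x' y' n1 n2
    have a1 : y - x ≠ 0 := sub_ne_zero.mpr n1.symm
    have a2 : y' - x' ≠ 0 := sub_ne_zero.mpr n2.symm
    refine ⟨mkP ((y' - x') / (y - x)) (div_ne_zero a2 a1) (x' - (y' - x') / (y - x) * x)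
      (RingEquiv.refl F), hA _ (mkP_semi _ _ _ _), by simp, ?_⟩
    simp only [mkP_apply, RingEquiv.refl_apply]
    field_simp
    ring
  have hc : ∀ x : F, ({x}ᶜ : Set F).ncard = Nat.card F - 1 := fun x => by
    rw [Set.ncard_compl, Set.ncard_singleton]
  have hm : ∀ B, B ∈ D ↔ ∃ x, B = {x}ᶜ := fun B => by rw [hD]; rfl
  refine ⟨Nat.card F - 1, Nat.card F - 1, ⟨?_, ?_⟩, by omega, fun g hg => AutG_image hg,
    fun x y x' y' a b _ _ => two x y x' y' a b, fun x y x' y' a b _ _ => two x y x' y' a b,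
    ?_, ?_, ?_, ?_⟩
  · intro B hB
    obtain ⟨x, rfl⟩ := (hm B).mp hB
    exact hc x
  · intro x
    have : {B | B ∈ D ∧ x ∈ B} = (fun y : F => ({y}ᶜ : Set F)) '' {x}ᶜ := by
      ext B
      constructor
      · rintro ⟨hB, hx⟩
        obtain ⟨y, rfl⟩ := (hm B).mp hB
        exact ⟨y, fun e => hx (Eq.symm e), rfl⟩
      · rintro ⟨y, hy, rfl⟩
        exact ⟨(hm _).mpr ⟨y, rfl⟩, fun e => hy (Eq.symm e)⟩
    rw [this, Set.ncard_image_of_injective _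
      (fun _ _ e => Set.singleton_injective (compl_injective e)), hc]
  · intro x x' B hB B' hB' a1 a2
    obtain ⟨y, rfl⟩ := (hm B).mp hB
    obtain ⟨y', rfl⟩ := (hm B').mp hB'
    obtain ⟨g, hg, e1, e2⟩ := two x y x' y' a1 a2
    exact ⟨g, hg, e1, by rw [himg, e2]⟩
  · intro x x' B hB B' hB' a1 a2
    obtain ⟨y, rfl⟩ := (hm B).mp hB
    obtain ⟨y', rfl⟩ := (hm B').mp hB'
    have e1 : x = y := by simpa using a1
    have e2 : x' = y' := by simpa using a2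
    subst e1 e2
    exact ⟨tr (x' - x), hA _ ⟨1, x' - x, RingEquiv.refl F, fun z => by simp⟩, by simp,
      by rw [himg]; simp⟩
  all_goals
    intro B hB C hC B' hB' C' hC' n1 n2 _ _
    obtain ⟨x, rfl⟩ := (hm B).mp hB
    obtain ⟨y, rfl⟩ := (hm C).mp hC
    obtain ⟨x', rfl⟩ := (hm B').mp hB'
    obtain ⟨y', rfl⟩ := (hm C').mp hC'
    obtain ⟨g, hg, e1, e2⟩ := two x y x' y' (by rintro rfl; exact n1 rfl)
      (by rintro rfl; exact n2 rfl)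
    exact ⟨g, hg, by rw [himg, e1], by rw [himg, e2]⟩

end Pool.Agent.MP_f8e15f_co.H24
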