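import Pool.Agent.MP_f8e15f_co.H24.Conv1

namespace Pool.Agent.MP_f8e15f_co.H24

open Equiv Pointwise

variable {F : Type} [Field F] [Finite F]

omit [Finite F] in
theorem prim_frob {p l : ℕ} (hl : l.Prime)
    (hp : ∀ i ∈ Finset.Ico 1 l, ∃ j ∈ Finset.range l, p ^ j % l = i) {X Y : F}
    (hX : X ^ l = 1) (hX1 : X ≠ 1) (hY : Y ^ l = 1) (hY1 : Y ≠ 1) : ∃ j, X ^ p ^ j = Y := by
  haveI : Fact l.Prime := ⟨hl⟩
  have h1 : IsPrimitiveRoot X l := by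
    rw [← orderOf_eq_prime hX hX1]; exact IsPrimitiveRoot.orderOf X
  obtain ⟨i, hi, rfl⟩ := h1.eq_pow_of_pow_eq_one hY
  have hi0 : i ≠ 0 := by rintro rfl; simp at hY1
  obtain ⟨j, -, hj⟩ := hp i (Finset.mem_Ico.mpr ⟨by omega, hi⟩)
  exact ⟨j, by rw [pow_eq_pow_mod _ hX, hj]⟩

/-- The line `a K`. -/
def ln (n : ℕ) (a : F) : Set F := {z | ∃ t : F, t ^ n = t ∧ z = a * t}

omit [Finite F] in
theorem ln_mul {n : ℕ} (a : F) {t0 : F} (h : t0 ^ n = t0) (h0 : t0 ≠ 0) :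
    ln n (a * t0) = ln n a := by
  ext z
  constructor
  · rintro ⟨t, ht, rfl⟩; exact ⟨t0 * t, by rw [mul_pow, h, ht], by ring⟩
  · rintro ⟨t, ht, rfl⟩
    exact ⟨t / t0, by rw [div_pow, h, ht], by field_simp⟩

omit [Finite F] in
theorem sc_ln {n : ℕ} (u : Fˣ) (c x : F) : sc u '' ln n (c * x) = ln n (c * (u * x)) := by
  ext z
  constructor
  · rintro ⟨_, ⟨t, ht, rfl⟩, rfl⟩; exact ⟨t, ht, by simp; ring⟩
  · rintro ⟨t, ht, rfl⟩; exact ⟨_, ⟨t, ht, rfl⟩, by simp; ring⟩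

/-- Twisted field automorphism fixing `c`. -/
noncomputable def tw (c : F) (hc : c ≠ 0) (σ : F ≃+* F) : Perm F :=
  mkP (c * (σ c)⁻¹) (mul_ne_zero hc (inv_ne_zero (by simpa using hc))) 0 σ

omit [Finite F] in
theorem tw_apply (c : F) (hc : c ≠ 0) (σ : F ≃+* F) (x : F) : tw c hc σ (c * x) = c * σ x := by
  have : σ c ≠ 0 := by simpa using hc
  rw [tw, mkP_apply, map_mul]; field_simp; simp

omit [Finite F] in
theorem tw_ln {n : ℕ} (c : F) (hc : c ≠ 0) (σ : F ≃+* F) (x : F) :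
    tw c hc σ '' ln n (c * x) = ln n (c * σ x) := by
  ext z
  constructor
  · rintro ⟨_, ⟨t, ht, rfl⟩, rfl⟩
    exact ⟨σ t, by rw [← map_pow, ht], by rw [mul_assoc, tw_apply, map_mul, mul_assoc]⟩
  · rintro ⟨t, ht, rfl⟩
    refine ⟨_, ⟨σ.symm t, by rw [← map_pow, ht], rfl⟩, ?_⟩
    rw [mul_assoc, tw_apply, map_mul, mul_assoc]; simp

theorem conv_cyclo {p b n ρ e : ℕ} (hp : p.Prime) (hb : 1 ≤ b) (hn : n = p ^ b)
    (hq : Nat.card F = n ^ 2) (hfac : n + 1 = ρ * e) (hρ : ρ.Prime) (h3 : 3 ≤ ρ)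
    (hρ2 : ∀ i ∈ Finset.Ico 1 ρ, ∃ j ∈ Finset.range ρ, p ^ j % ρ = i)
    (he : e = 1 ∨ e.Prime) (he2 : ∀ i ∈ Finset.Ico 1 e, ∃ j ∈ Finset.range e, p ^ j % e = i)
    {c : F} (hc : c ≠ 0) :
    ∃ k r, IsOneDesign (cycloNet n ρ c) k r ∧ 3 ≤ r ∧
      PairwiseTransitive (AutG (cycloNet n ρ c)) (cycloNet n ρ c) := by
  haveI : Fact p.Prime := ⟨hp⟩
  haveI : CharP F p := by
    haveI := Fintype.ofFinite F
    apply charP_of_card_eq_prime_pow (f := b * 2)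
    rw [Fintype.card_eq_nat_card, hq, hn, pow_mul]
  have hn2 : 2 ≤ n := by rw [hn]; exact le_trans hp.two_le (Nat.le_self_pow (by omega) p)
  have hq1 : Nat.card F - 1 = (n + 1) * (n - 1) := by rw [hq, ← Nat.sq_sub_sq]
  have hsub : ∀ x y : F, (x - y) ^ n = x ^ n - y ^ n := fun x y => by rw [hn, sub_pow_char_pow]
  have hadd : ∀ x y : F, (x + y) ^ n = x ^ n + y ^ n := fun x y => by rw [hn, add_pow_char_pow]
  have hneg : ∀ x : F, (-x) ^ n = -x ^ n := fun x => by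
    rw [← zero_sub, hsub, zero_pow (by omega), zero_sub]
  have hpow : ∀ t : F, t ^ n = t ^ (n - 1) * t := fun t => by
    rw [← pow_succ, Nat.sub_add_cancel (by omega)]
  have hnn : ∀ z : F, (z ^ n) ^ n = z := by
    intro z
    by_cases h0 : z = 0
    · rw [h0, zero_pow (by omega), zero_pow (by omega)]
    · have h1 := pow_card_units h0
      have h2 : n * n = (Nat.card F - 1) + 1 := by
        rw [hq, pow_two, Nat.sub_add_cancel (Nat.mul_pos (by omega) (by omega))]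
      rw [← pow_mul, h2, pow_succ, h1, one_mul]
  have decomp : ∀ w : F, w ^ n ≠ w → ∀ z : F, ∃ t u : F, t ^ n = t ∧ u ^ n = u ∧ z = u + w * t := by
    intro w hw z
    have h0 : w - w ^ n ≠ 0 := sub_ne_zero.mpr hw.symm
    have h0' : w ^ n - w ≠ 0 := sub_ne_zero.mpr hw
    have ht : ((z - z ^ n) / (w - w ^ n)) ^ n = (z - z ^ n) / (w - w ^ n) := by
      rw [div_pow, hsub, hsub, hnn, hnn]; field_simp; ring
    refine ⟨_, z - w * ((z - z ^ n) / (w - w ^ n)), ht, ?_, by ring⟩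
    rw [hsub, mul_pow, ht]; field_simp; ring
  have hm0 : 0 < ρ * (n - 1) := Nat.mul_pos (by omega) (by omega)
  have hne0 : ∀ x : F, x ^ (ρ * (n - 1)) = 1 → x ≠ 0 := by
    rintro x hx rfl
    rw [zero_pow hm0.ne'] at hx
    exact zero_ne_one hx
  have hK : ∀ t : F, t ^ n = t → t ≠ 0 → t ^ (n - 1) = 1 := fun t ht h0 => by
    rw [hpow] at ht; exact (mul_eq_right₀ h0).mp ht
  have hK' : ∀ t : F, t ^ n = t → t ≠ 0 → t ^ (ρ * (n - 1)) = 1 := fun t ht h0 => by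
    rw [mul_comm, pow_mul, hK t ht h0, one_pow]
  set L : Set (Set F) := {M | ∃ x : F, x ^ (ρ * (n - 1)) = 1 ∧ M = ln n (c * x)} with hL
  have hsc : ∀ (x : F) (hx : x ^ (ρ * (n - 1)) = 1), sc (Units.mk0 x (hne0 x hx)) ∈ A0 L := by
    intro x hx
    refine ⟨⟨⟨_, _, _, sc_semi _⟩, ?_⟩, by change sc _ 0 = 0; simp⟩
    rintro _ ⟨y, hy, rfl⟩
    exact ⟨_, by rw [mul_pow, Units.val_mk0, hx, hy, one_mul], sc_ln _ c y⟩
  have htw : ∀ σ : F ≃+* F, tw c hc σ ∈ A0 L := by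
    intro σ
    refine ⟨⟨mkP_semi _ _ _ _, ?_⟩, by change tw c hc σ 0 = 0; simp [tw]⟩
    rintro _ ⟨y, hy, rfl⟩
    exact ⟨_, by rw [← map_pow, hy, map_one], tw_ln c hc σ y⟩
  have hnk : ∀ x : F, x ≠ 0 → ln n (c * x) ≠ ln n (c * 1) → x ^ n ≠ x := fun x h0 h1 h2 =>
    h1 (by rw [ln_mul c h2 h0, mul_one])
  apply conv_lin (L := L) (M1 := ln n (c * 1)) ⟨1, one_pow _, rfl⟩
  · exact ⟨0, zero_pow (by omega), by simp⟩
  · rintro _ ⟨t, ht, rfl⟩ _ ⟨u, hu, rfl⟩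
    exact ⟨t + u, by rw [hadd, ht, hu], by ring⟩
  · rintro _ ⟨t, ht, rfl⟩
    exact ⟨-t, by rw [hneg, ht], by ring⟩
  · rintro _ ⟨x, hx, rfl⟩ hne z
    obtain ⟨t, u, ht, hu, e⟩ := decomp x (hnk x (hne0 x hx) hne) (z / c)
    refine ⟨_, ⟨t, ht, rfl⟩, _, ⟨u, hu, rfl⟩, ?_⟩
    have : z = c * (z / c) := by field_simp
    rw [this, e]; ring
  · rintro _ ⟨x, hx, rfl⟩
    exact ⟨_, hsc x hx, by rw [sc_ln]; simp⟩
  · rintro _ ⟨x, hx, rfl⟩ _ ⟨x', hx', rfl⟩ n1 n2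
    have a : ∀ x : F, x ^ (ρ * (n - 1)) = 1 → ln n (c * x) ≠ ln n (c * 1) →
        (x ^ (n - 1)) ^ ρ = 1 ∧ x ^ (n - 1) ≠ 1 := fun x hx n1 =>
      ⟨by rw [← pow_mul, mul_comm, hx], fun e => hnk x (hne0 x hx) n1 (by rw [hpow, e, one_mul])⟩
    obtain ⟨j, hj⟩ := prim_frob hρ hρ2 (a x hx n1).1 (a x hx n1).2 (a x' hx' n2).1 (a x' hx' n2).2
    set σ := iterateFrobeniusEquiv F p j
    have hσ : σ (x ^ (n - 1)) = x' ^ (n - 1) := hj
    have h0' := hne0 x' hx'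
    have h0 : σ x ≠ 0 := by simpa using hne0 x hx
    refine ⟨_, htw σ, by rw [tw_ln, map_one], ?_⟩
    rw [tw_ln, show c * σ x = c * x' * (σ x / x') by field_simp]
    apply ln_mul _ _ (div_ne_zero h0 h0')
    rw [hpow, div_pow, ← map_pow, hσ, div_self (pow_ne_zero _ h0'), one_mul]
  · intro x y hx hy
    have hw : (x / c) ^ n ≠ x / c := fun e => hx ⟨_, e, by field_simp⟩
    obtain ⟨t, u, ht, hu, e⟩ := decomp _ hw (y / c)
    have hy' : y = c * u + x * t := by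
      have : y = c * (y / c) := by field_simp
      rw [this, e]; field_simp
    have ht0 : t ≠ 0 := by
      rintro rfl
      exact hy ⟨u, hu, by rw [hy']; ring⟩
    refine ⟨_, hsc t (hK' t ht ht0), ?_, -u, by rw [hneg, hu], ?_⟩
    · rw [sc_ln, Units.val_mk0, mul_one, ln_mul c ht ht0, mul_one]
    · rw [sc_apply, Units.val_mk0, hy']; ring
  · rintro _ ⟨t, ht, rfl⟩ _ ⟨u, hu, rfl⟩ n1 n2
    have ht0 : t ≠ 0 := by rintro rfl; simp at n1
    have hu0 : u ≠ 0 := by rintro rfl; simp at n2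
    refine ⟨_, hsc (u / t) (hK' _ (by rw [div_pow, ht, hu]) (div_ne_zero hu0 ht0)), ?_⟩
    rw [sc_apply, Units.val_mk0]; field_simp
  · intro x y hx hy
    have a : ∀ x : F, (∀ M ∈ L, x ∉ M) → x / c ≠ 0 ∧
        ((x / c) ^ (ρ * (n - 1))) ^ e = 1 ∧ (x / c) ^ (ρ * (n - 1)) ≠ 1 := by
      intro x hx
      have h0 : x / c ≠ 0 := fun e => hx _ ⟨1, one_pow _, rfl⟩
        ⟨0, zero_pow (by omega), by rw [(div_eq_zero_iff.mp e).resolve_right hc]; simp⟩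
      refine ⟨h0, ?_, fun e => hx _ ⟨_, e, rfl⟩ ⟨1, one_pow _, by field_simp⟩⟩
      rw [← pow_mul, ← pow_card_units h0, hq1, hfac]; congr 1; ring
    obtain ⟨x0, x1, x2⟩ := a x hx
    obtain ⟨y0, y1, y2⟩ := a y hy
    rcases he with rfl | he
    · exact absurd (by simpa using x1) x2
    obtain ⟨j, hj⟩ := prim_frob he he2 x1 x2 y1 y2
    set σ := iterateFrobeniusEquiv F p j
    have hσ : σ ((x / c) ^ (ρ * (n - 1))) = (y / c) ^ (ρ * (n - 1)) := hj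
    have h0 : σ (x / c) ≠ 0 := by simpa using x0
    have hκ : (y / c / σ (x / c)) ^ (ρ * (n - 1)) = 1 := by
      rw [div_pow, ← map_pow, hσ, div_self (pow_ne_zero _ y0)]
    refine ⟨_, (A0 L).mul_mem (hsc _ hκ) (htw σ), ?_⟩
    have : tw c hc σ x = c * σ (x / c) := by rw [← tw_apply c hc σ, mul_div_cancel₀ _ hc]
    rw [Perm.mul_apply, this, sc_apply, Units.val_mk0]
    field_simp
  · obtain ⟨ω, hω0, hω⟩ := exists_gen (F := F)
    have hη : IsPrimitiveRoot (ω ^ (e * (n - 1))) ρ :=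
      hω.pow (by rw [hq1]; exact Nat.mul_pos (by omega) (by omega)) (by rw [hq1, hfac]; ring)
    have hmem : ∀ i, ln n (c * (ω ^ e) ^ i) ∈ L := fun i => ⟨_, by
      rw [← pow_mul, ← pow_mul, show e * (i * (ρ * (n - 1))) = e * (n - 1) * ρ * i by ring,
        pow_mul, pow_mul, hη.pow_eq_one, one_pow], rfl⟩
    have hinj : ∀ i < ρ, ∀ i' < ρ, ln n (c * (ω ^ e) ^ i) = ln n (c * (ω ^ e) ^ i') → i = i' := by
      intro i hi i' hi' h
      have : c * (ω ^ e) ^ i ∈ ln n (c * (ω ^ e) ^ i') := h ▸ ⟨1, one_pow _, by simp⟩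
      obtain ⟨t, ht, e1⟩ := this
      have ht0 : t ≠ 0 := by rintro rfl; simp [hc, hω0] at e1
      rw [mul_assoc] at e1
      have e2 := congrArg (· ^ (n - 1)) (mul_left_cancel₀ hc e1)
      simp only [mul_pow, hK t ht ht0, mul_one] at e2
      apply hη.pow_inj hi hi'
      rw [pow_mul, pow_right_comm, e2, pow_right_comm _ i']
    refine (Set.two_lt_ncard (Set.toFinite _)).mpr ⟨_, hmem 0, _, hmem 1, _, hmem 2, ?_, ?_, ?_⟩
    · intro h; have := hinj _ (by omega) _ (by omega) h; omega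
    · intro h; have := hinj _ (by omega) _ (by omega) h; omega
    · intro h; have := hinj _ (by omega) _ (by omega) h; omega
  · intro B
    have hb : ∀ x y : F, tr y '' ln n (c * x) = {z | ∃ t : F, t ^ n = t ∧ z = c * x * t + y} := by
      intro x y
      ext z
      constructor
      · rintro ⟨_, ⟨t, ht, rfl⟩, rfl⟩; exact ⟨t, ht, rfl⟩
      · rintro ⟨t, ht, rfl⟩; exact ⟨_, ⟨t, ht, rfl⟩, rfl⟩
    constructor
    · rintro ⟨x, y, hx, rfl⟩; exact ⟨_, ⟨x, hx, rfl⟩, y, (hb x y).symm⟩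
    · rintro ⟨_, ⟨x, hx, rfl⟩, y, rfl⟩; exact ⟨x, y, hx, hb x y⟩

end Pool.Agent.MP_f8e15f_co.H24
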