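import Pool.Agent.MP_f8e15f_co.H24.Conv2

namespace Pool.Agent.MP_f8e15f_co.H24

open Equiv Pointwise

variable {F : Type} [Field F] [Finite F]

/-- The `j`-th iterate of `z ↦ γ z ^ 3`. -/
def WP (γ : F) (j : ℕ) (y : F) : F := γ ^ ((3 ^ j - 1) / 2) * y ^ 3 ^ j

section pe
variable [CharP F 3] (hq : Nat.card F = 81) {γ : F} (hγ : γ ^ 40 = -1)
include hq hγ

theorem WP_inj {y : F} (hy : y ≠ 0) {j j' : ℕ} (hj : j < 4) (hj' : j' < 4)
    (h : WP γ j y ^ 10 = WP γ j' y ^ 10) : j = j' := by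
  have h3 : (3 : F) = 0 := CharP.cast_eq_zero F 3
  have h80 := pow_card_units hy
  rw [hq] at h80
  norm_num at h80
  have hγ0 : γ ≠ 0 := by rintro rfl; simp at hγ
  set Y := y ^ 10 with hY
  set G := γ ^ 10 with hG
  have a1 : Y ^ 8 = 1 := by rw [hY, ← pow_mul]; exact h80
  have a2 : G ^ 4 = -1 := by rw [hG, ← pow_mul]; exact hγ
  have hY0 : Y ≠ 0 := pow_ne_zero _ hy
  have hG0 : G ≠ 0 := pow_ne_zero _ hγ0
  have e0 : WP γ 0 y ^ 10 = Y := by simp [WP, hY]
  have e1 : WP γ 1 y ^ 10 = G * Y ^ 3 := by simp [WP, hY, hG]; ring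
  have e2 : WP γ 2 y ^ 10 = -Y := by
    have : WP γ 2 y ^ 10 = G ^ 4 * Y ^ 8 * Y := by simp [WP, hY, hG]; ring
    rw [this, a1, a2]; ring
  have e3 : WP γ 3 y ^ 10 = -(G * Y ^ 3) := by
    have : WP γ 3 y ^ 10 = (G ^ 4) ^ 3 * (Y ^ 8) ^ 3 * (G * Y ^ 3) := by
      simp [WP, hY, hG]; ring
    rw [this, a1, a2]; ring
  have n0 : ∀ x : F, x = -x → x = 0 := fun x hx => by linear_combination h3 * x - hx
  have n1 : Y ≠ -Y := fun e => hY0 (n0 _ e)
  have n4 : G * Y ^ 3 ≠ -(G * Y ^ 3) := fun e => mul_ne_zero hG0 (pow_ne_zero _ hY0) (n0 _ e)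
  have n5 : (G * Y ^ 3) ^ 4 ≠ Y ^ 4 := fun e => pow_ne_zero 4 hY0 (n0 _ (by
    have : (G * Y ^ 3) ^ 4 = G ^ 4 * Y ^ 8 * Y ^ 4 := by ring
    rw [this, a1, a2] at e
    linear_combination -e))
  have n2 : Y ≠ G * Y ^ 3 := fun e => n5 (by rw [← e])
  have n3 : Y ≠ -(G * Y ^ 3) := fun e => n5 (by nth_rewrite 2 [e]; ring)
  have n6 : -Y ≠ G * Y ^ 3 := fun e => n3 (by rw [← e, neg_neg])
  have n7 : -Y ≠ -(G * Y ^ 3) := fun e => n2 (neg_injective e)
  interval_cases j <;> interval_cases j' <;> simp only [e0, e1, e2, e3] at h <;>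
    first | rfl | exact absurd h ‹_› | exact absurd h.symm ‹_›

theorem WP_ne {y : F} (hy : y ≠ 0) (j : ℕ) : WP γ j y ≠ 0 := by
  have hγ0 : γ ≠ 0 := by rintro rfl; simp at hγ
  exact mul_ne_zero (pow_ne_zero _ hγ0) (pow_ne_zero _ hy)

omit hq hγ in
theorem WP_mem {y : F} (hy : y ∈ MP γ) {j : ℕ} (hj : j < 4) : WP γ j y ∈ MP γ := by
  have a1 := MP_step hy
  have a2 := MP_step a1
  have a3 := MP_step a2
  interval_cases j
  · simpa [WP] using hy
  · simpa [WP] using a1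
  · convert a2 using 1; simp [WP]; ring
  · convert a3 using 1; simp [WP]; ring

theorem orbM {x : F} (hx : x ∈ MP γ) (hx0 : x ≠ 0) : (MP γ).ncard = 9 ∧
    ∀ y ∈ MP γ, y ≠ 0 → ∃ j < 4, y = WP γ j x ∨ y = -WP γ j x := by
  classical
  have hγ0 : γ ≠ 0 := by rintro rfl; simp at hγ
  have h3 : (3 : F) = 0 := CharP.cast_eq_zero F 3
  set f : ℕ × ℕ → F := fun a => (-1) ^ a.1 * WP γ a.2 x with hf
  set T : Finset F := insert 0 ((Finset.range 2 ×ˢ Finset.range 4).image f) with hT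
  have hc : T.card = 9 := by
    rw [hT, Finset.card_insert_of_notMem, Finset.card_image_of_injOn]
    · simp
    · rintro ⟨i, j⟩ h1 ⟨i', j'⟩ h2 e
      simp only [Finset.coe_product, Set.mem_prod, Finset.coe_range, Set.mem_Iio] at h1 h2
      have e' : (-1) ^ i * WP γ j x = (-1) ^ i' * WP γ j' x := e
      have e2 : j = j' := by
        apply WP_inj hq hγ hx0 h1.2 h2.2
        have := congrArg (· ^ 10) e'
        have b : ∀ i : ℕ, ((-1 : F) ^ i) ^ 10 = 1 := fun i => by rw [pow_right_comm]; norm_num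
        simpa only [mul_pow, b, one_mul] using this
      subst e2
      have e3 := mul_right_cancel₀ (WP_ne hq hγ hx0 j) e'
      obtain ⟨h1, -⟩ := h1
      obtain ⟨h2, -⟩ := h2
      have n : (1 : F) ≠ -1 := fun e => one_ne_zero (by linear_combination h3 - e : (1 : F) = 0)
      interval_cases i <;> interval_cases i' <;> simp at e3 <;>
        first | rfl | exact absurd e3 n | exact absurd e3.symm n
    · rw [Finset.mem_image]
      rintro ⟨a, -, e⟩
      exact mul_ne_zero (pow_ne_zero _ (by simp)) (WP_ne hq hγ hx0 _) e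
  have hsub : (T : Set F) ⊆ MP γ := by
    intro z hz
    rw [hT, Finset.mem_coe, Finset.mem_insert, Finset.mem_image] at hz
    rcases hz with rfl | ⟨⟨i, j⟩, h1, rfl⟩
    · simp [MP]
    · rw [Finset.mem_product, Finset.mem_range, Finset.mem_range] at h1
      have := WP_mem hx h1.2
      rcases neg_one_pow_eq_or F i with e | e
      · simpa [hf, e] using this
      · simpa [hf, e] using MP_neg this
  have he : (T : Set F) = MP γ := Set.eq_of_subset_of_ncard_le hsub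
    (by rw [Set.ncard_coe_finset, hc]; exact MP_card_le hγ0) (Set.toFinite _)
  refine ⟨by rw [← he, Set.ncard_coe_finset, hc], fun y hy hy0 => ?_⟩
  rw [← he, hT, Finset.mem_coe, Finset.mem_insert, Finset.mem_image] at hy
  rcases hy with rfl | ⟨⟨i, j⟩, h1, rfl⟩
  · exact absurd rfl hy0
  · rw [Finset.mem_product, Finset.mem_range, Finset.mem_range] at h1
    refine ⟨j, h1.2, ?_⟩
    rcases neg_one_pow_eq_or F i with e | e <;> simp [hf, e]

theorem MP_nonzero : ∃ x ∈ MP γ, x ≠ 0 := by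
  have hγ0 : γ ≠ 0 := by rintro rfl; simp at hγ
  by_contra hh
  push Not at hh
  have : MP (-γ) = Set.univ := by
    ext x
    have := hh _ (MP_img hq hγ x)
    simp only [MP, Set.mem_setOf_eq, Set.mem_univ, iff_true]
    linear_combination this
  have h1 := MP_card_le (neg_ne_zero.mpr hγ0)
  rw [this, Set.ncard_univ, hq] at h1
  omega

theorem zeta_one {x ζ : F} (hx : x ∈ MP γ) (hx0 : x ≠ 0) (hζ : ζ ^ 5 = 1) (h : ζ * x ∈ MP γ) :
    ζ = 1 := by
  have h3 : (3 : F) = 0 := CharP.cast_eq_zero F 3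
  have hζ0 : ζ ≠ 0 := by rintro rfl; simp at hζ
  obtain ⟨j, hj, e⟩ := (orbM hq hγ hx hx0).2 _ h (mul_ne_zero hζ0 hx0)
  have e1 : WP γ j x ^ 10 = WP γ 0 x ^ 10 := by
    have : (ζ * x) ^ 10 = WP γ j x ^ 10 := by rcases e with e | e <;> rw [e]; ring
    rw [← this, mul_pow, show 10 = 5 * 2 from rfl, pow_mul, hζ]; simp [WP]
  have := WP_inj hq hγ hx0 hj (by norm_num) e1
  subst this
  have e0 : WP γ 0 x = x := by simp [WP]
  rw [e0] at e
  rcases e with e | e
  · exact (mul_eq_right₀ hx0).mp e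
  · have : ζ = -1 := mul_right_cancel₀ hx0 (by rw [e]; ring)
    rw [this] at hζ
    exact absurd (by linear_combination h3 + hζ : (1 : F) = 0) one_ne_zero

end pe

theorem conv_peisert (hq : Nat.card F = 81) {γ : F} (hns : ¬ IsSquare γ) :
    ∃ k r, IsOneDesign (peisertNet γ) k r ∧ 3 ≤ r ∧
      PairwiseTransitive (AutG (peisertNet γ)) (peisertNet γ) := by
  classical
  haveI : Fact (Nat.Prime 3) := ⟨by norm_num⟩
  haveI : CharP F 3 := by
    haveI := Fintype.ofFinite F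
    apply charP_of_card_eq_prime_pow (f := 4)
    rw [Fintype.card_eq_nat_card, hq]; norm_num
  obtain ⟨ω, hω0, hω⟩ := exists_gen (F := F)
  rw [hq] at hω
  norm_num at hω
  have hγ0 : γ ≠ 0 := by rintro rfl; exact hns ⟨0, by simp⟩
  have hγ : γ ^ 40 = -1 := by
    have h80 := pow_card_units hγ0
    rw [hq] at h80
    norm_num at h80
    have : (γ ^ 40 - 1) * (γ ^ 40 + 1) = 0 := by linear_combination h80
    rcases mul_eq_zero.mp this with e | e
    · exfalso
      obtain ⟨i, -, rfl⟩ := hω.eq_pow_of_pow_eq_one h80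
      rw [sub_eq_zero, ← pow_mul, hω.pow_eq_one_iff_dvd] at e
      obtain ⟨m, hm⟩ := e
      exact hns ⟨ω ^ m, by rw [← pow_add]; congr 1; omega⟩
    · linear_combination e
  have hγ' : (-γ) ^ 40 = -1 := by linear_combination hγ
  obtain ⟨x0, hx0, hx00⟩ := MP_nonzero hq hγ
  have hcard := (orbM hq hγ hx0 hx00).1
  set M := MP γ with hM
  set lm : F → Set F := fun ζ => (fun z => ζ * z) '' M with hlm
  set L : Set (Set F) := {N | ∃ ζ : F, ζ ^ 5 = 1 ∧ N = lm ζ} with hL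
  have lm1 : lm 1 = M := by simp [hlm]
  set g : Perm F := mkP γ hγ0 0 (frobeniusEquiv F 3) with hgd
  have hg : ∀ z, g z = γ * z ^ 3 := fun z => by rw [hgd, mkP_apply, add_zero]; rfl
  have hgM : g '' M = M := by
    refine Set.eq_of_subset_of_ncard_le ?_ ?_ (Set.toFinite _)
    · rintro _ ⟨y, hy, rfl⟩; rw [hg]; exact MP_step hy
    · rw [Set.ncard_image_of_injective _ g.injective]
  have hglm : ∀ ζ, g '' lm ζ = lm (ζ ^ 3) := by
    intro ζ
    simp only [hlm]
    nth_rewrite 2 [← hgM]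
    rw [Set.image_image, Set.image_image]
    congr 1; ext z; rw [hg, hg]; ring
  have hgA : g ∈ A0 L := by
    refine ⟨⟨mkP_semi _ _ _ _, ?_⟩, by change g 0 = 0; simp [hg]⟩
    rintro _ ⟨ζ, hζ, rfl⟩
    exact ⟨ζ ^ 3, by rw [pow_right_comm, hζ, one_pow], hglm ζ⟩
  have hgj : ∀ (j : ℕ) ζ, (g ^ j) '' lm ζ = lm (ζ ^ 3 ^ j) := by
    intro j ζ
    induction j with
    | zero => simp
    | succ j ih => rw [pow_succ', img_mul, ih, hglm, ← pow_mul, pow_succ]
  have hW : ∀ j < 4, ∀ y, (g ^ j) y = WP γ j y := by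
    intro j hj y
    interval_cases j <;> simp [pow_succ, hg, WP] <;> ring
  have hsclm : ∀ (u : Fˣ) ζ, sc u '' lm ζ = lm (u * ζ) := by
    intro u ζ
    simp only [hlm]
    rw [Set.image_image]
    congr 1; ext z; simp [mul_assoc]
  have hneglm : ∀ ζ, lm (-ζ) = lm ζ := by
    intro ζ
    ext z
    constructor <;> rintro ⟨x, hx, rfl⟩ <;> exact ⟨-x, MP_neg hx, by simp⟩
  have hsc : ∀ u : Fˣ, (u : F) ^ 10 = 1 → sc u ∈ A0 L := by
    intro u hu
    refine ⟨⟨⟨_, _, _, sc_semi _⟩, ?_⟩, by change sc _ 0 = 0; simp⟩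
    rintro _ ⟨ζ, hζ, rfl⟩
    rw [hsclm]
    have : ((u : F) ^ 5 - 1) * ((u : F) ^ 5 + 1) = 0 := by linear_combination hu
    rcases mul_eq_zero.mp this with e | e
    · exact ⟨_, by rw [mul_pow, hζ]; linear_combination e, rfl⟩
    · exact ⟨-(u * ζ), by linear_combination -(u : F) ^ 5 * hζ - e, (hneglm _).symm⟩
  have hm1 : sc (-1) ∈ A0 L := hsc _ (by simp; norm_num)
  have hpm : ∀ j < 4, ∀ x y, (y = WP γ j x ∨ y = -WP γ j x) →
      ∃ f ∈ A0 L, f '' M = M ∧ f x = y ∧ ∀ z, f (g z) = g (f z) := by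
    intro j hj x y e
    have a1 : (g ^ j) '' M = M := by rw [← lm1, hgj, one_pow]
    have a2 : ∀ z, (g ^ j) (g z) = g ((g ^ j) z) := fun z => by
      rw [← Perm.mul_apply, ← pow_succ, pow_succ', Perm.mul_apply]
    rcases e with e | e
    · exact ⟨_, (A0 L).pow_mem hgA j, a1, by rw [hW j hj, e], a2⟩
    · refine ⟨_, (A0 L).mul_mem hm1 ((A0 L).pow_mem hgA j), ?_, ?_, fun z => ?_⟩
      · rw [img_mul, a1, ← lm1, hsclm]; simp [hneglm]
      · rw [Perm.mul_apply, hW j hj, e]; simp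
      · rw [Perm.mul_apply, Perm.mul_apply, a2, hg, hg]; simp; ring
  have hne0 : ∀ ζ : F, ζ ^ 5 = 1 → ζ ≠ 0 := by rintro ζ h rfl; simp at h
  have hadd : ∀ x ∈ M, ∀ y ∈ M, x + y ∈ M := by
    intro x hx y hy
    have hx' : γ ^ 4 * x ^ 9 = γ * x ^ 3 + x := hx
    have hy' : γ ^ 4 * y ^ 9 = γ * y ^ 3 + y := hy
    change γ ^ 4 * (x + y) ^ 9 = γ * (x + y) ^ 3 + (x + y)
    rw [show 9 = 3 * 3 from rfl, pow_mul, cube_add, cube_add]
    linear_combination hx' + hy'
  apply conv_lin (L := L) (M1 := M) ⟨1, one_pow _, lm1.symm⟩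
  · simp [hM, MP]
  · exact hadd
  · exact fun x hx => MP_neg hx
  · rintro _ ⟨ζ, hζ, rfl⟩ hne z
    have hζ1 : ζ ≠ 1 := by rintro rfl; exact hne lm1
    have hinj : Function.Injective (fun a : M × M => ζ * a.1 + a.2) := by
      rintro ⟨⟨a, ha⟩, ⟨b, hb⟩⟩ ⟨⟨a', ha'⟩, ⟨b', hb'⟩⟩ e
      simp only at e
      have e1 : a = a' := by
        by_contra hn
        apply hζ1
        apply zeta_one hq hγ (hadd _ ha _ (MP_neg ha')) (by rw [← sub_eq_add_neg]; exact sub_ne_zero.mpr hn) hζ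
        rw [show ζ * (a + -a') = b' + -b by linear_combination e]
        exact hadd _ hb' _ (MP_neg hb)
      subst e1
      have e2 : b = b' := add_left_cancel e
      subst e2
      rfl
    have hbij := hinj.bijective_of_nat_card_le (by
      rw [Nat.card_prod, Nat.card_coe_set_eq, hcard, hq])
    obtain ⟨⟨a, b⟩, e⟩ := hbij.2 z
    exact ⟨_, ⟨a, a.2, rfl⟩, b, b.2, e.symm⟩
  · rintro _ ⟨ζ, hζ, rfl⟩
    refine ⟨_, hsc (Units.mk0 ζ (hne0 ζ hζ)) (by
      rw [Units.val_mk0, show 10 = 5 * 2 from rfl, pow_mul, hζ, one_pow]), ?_⟩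
    rw [← lm1, hsclm]; simp
  · rintro _ ⟨ζ, hζ, rfl⟩ _ ⟨ζ', hζ', rfl⟩ n1 n2
    obtain ⟨j, hj⟩ := prim_frob (p := 3) (l := 5) (by norm_num) (by decide) hζ
      (by rintro rfl; exact n1 lm1) hζ' (by rintro rfl; exact n2 lm1)
    exact ⟨_, (A0 L).pow_mem hgA j, by rw [← lm1, hgj, one_pow], by rw [hgj, hj]⟩
  · intro x y hx hy
    have a : ∀ x, x ∉ M → g (g x) - g x - x ∈ MP (-γ) ∧ g (g x) - g x - x ≠ 0 := by
      intro x hx
      refine ⟨?_, fun e => hx ?_⟩
      · convert MP_img hq hγ' x using 1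
        rw [hg, hg]; ring
      · rw [hg, hg] at e
        change γ ^ 4 * x ^ 9 = γ * x ^ 3 + x
        linear_combination e
    obtain ⟨j, hj, e⟩ := (orbM hq hγ' (a x hx).1 (a x hx).2).2 _ (a y hy).1 (a y hy).2
    have e' : g (g y) - g y - y = WP γ j (g (g x) - g x - x) ∨
        g (g y) - g y - y = -WP γ j (g (g x) - g x - x) := by
      have : ∀ w, WP (-γ) j w = WP γ j w ∨ WP (-γ) j w = -WP γ j w := fun w => by
        rw [WP, WP, neg_pow]
        rcases neg_one_pow_eq_or F ((3 ^ j - 1) / 2) with e | e <;> rw [e] <;> simp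
      rcases this (g (g x) - g x - x) with b | b <;> rw [b] at e
      · exact e
      · rw [neg_neg] at e; exact e.symm
    obtain ⟨f, hf, e1, e2, e3⟩ := hpm j hj _ _ e'
    refine ⟨f, hf, e1, ?_⟩
    rw [A0_sub hf, A0_sub hf, e3, e3] at e2
    have e4 : g (g (f x - y)) - g (f x - y) - (f x - y) = 0 := by
      rw [A0_sub hgA, A0_sub hgA]; linear_combination e2
    rw [hg, hg] at e4
    change γ ^ 4 * (f x - y) ^ 9 = γ * (f x - y) ^ 3 + (f x - y)
    linear_combination e4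
  · intro x hx y hy n1 n2
    obtain ⟨j, hj, e⟩ := (orbM hq hγ hx n1).2 y hy n2
    obtain ⟨f, hf, -, e2, -⟩ := hpm j hj _ _ e
    exact ⟨f, hf, e2⟩
  · intro x y hx hy
    have hξ : IsPrimitiveRoot (ω ^ 8) 10 := hω.pow (by norm_num) (by norm_num)
    set u : Fˣ := Units.mk0 (ω ^ 8) (pow_ne_zero _ hω0) with hu
    have hu10 : ∀ i, ((u ^ i : Fˣ) : F) ^ 10 = 1 := fun i => by
      rw [Units.val_pow_eq_pow_val, pow_right_comm, hu, Units.val_mk0, hξ.pow_eq_one, one_pow]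
    set ff : ℕ × ℕ → Perm F := fun a => sc (u ^ a.1) * g ^ a.2 with hff
    have hffA : ∀ a, ff a ∈ A0 L := fun a =>
      (A0 L).mul_mem (hsc _ (hu10 _)) ((A0 L).pow_mem hgA _)
    set O : F → Finset F := fun w => (Finset.range 10 ×ˢ Finset.range 4).image (fun a => ff a w)
      with hO
    have hOc : ∀ w, w ≠ 0 → (O w).card = 40 := by
      intro w hw
      simp only [hO]
      rw [Finset.card_image_of_injOn]
      · simp
      rintro ⟨i, j⟩ h1 ⟨i', j'⟩ h2 e
      simp only [Finset.coe_product, Set.mem_prod, Finset.coe_range, Set.mem_Iio] at h1 h2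
      simp only [hff, Perm.mul_apply, sc_apply, hW j h1.2, hW j' h2.2] at e
      have e2 : j = j' := by
        apply WP_inj hq hγ hw h1.2 h2.2
        have := congrArg (· ^ 10) e
        simpa only [mul_pow, hu10, one_mul] using this
      subst e2
      have e3 := mul_right_cancel₀ (WP_ne hq hγ hw j) e
      rw [Units.val_pow_eq_pow_val, Units.val_pow_eq_pow_val, hu, Units.val_mk0] at e3
      rw [hξ.pow_inj h1.1 h2.1 e3]
    set Uc : Set F := {w | ∀ N ∈ L, w ∉ N} with hUc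
    have hML : M ∈ L := ⟨1, one_pow _, lm1.symm⟩
    have h0M : (0 : F) ∈ M := by simp [hM, MP]
    have hs1 : ((insert 0 (O x0) : Finset F) : Set F) ⊆ Ucᶜ := by
      intro w hw hw'
      rw [Finset.mem_coe, Finset.mem_insert] at hw
      rcases hw with rfl | hw
      · exact hw' M hML h0M
      · obtain ⟨a, -, rfl⟩ := Finset.mem_image.mp hw
        exact hw' _ ((hffA a).1.2 M hML) ⟨x0, hx0, rfl⟩
    have hc1 : (insert 0 (O x0) : Finset F).card = 41 := by
      rw [Finset.card_insert_of_notMem, hOc x0 hx00]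
      intro hw
      obtain ⟨a, -, e⟩ := Finset.mem_image.mp hw
      exact hx00 ((ff a).injective (e.trans (mem_A0.mp (hffA a)).2.symm))
    have hc2 := Set.ncard_le_ncard hs1 (Set.toFinite _)
    have hc3 := Set.ncard_add_ncard_compl Uc
    rw [Set.ncard_coe_finset, hc1] at hc2
    have hs2 : (O x : Set F) ⊆ Uc := by
      intro w hw N hN hwN
      obtain ⟨a, -, rfl⟩ := Finset.mem_image.mp hw
      exact hx _ (((A0 L).inv_mem (hffA a)).1.2 N hN) ⟨_, hwN, by simp⟩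
    have hx0' : x ≠ 0 := by rintro rfl; exact hx M hML h0M
    have he : (O x : Set F) = Uc := Set.eq_of_subset_of_ncard_le hs2
      (by rw [Set.ncard_coe_finset, hOc x hx0']; omega) (Set.toFinite _)
    have : y ∈ (O x : Set F) := he ▸ hy
    obtain ⟨a, -, e⟩ := Finset.mem_image.mp this
    exact ⟨_, hffA a, e⟩
  · have hξ : IsPrimitiveRoot (ω ^ 16) 5 := hω.pow (by norm_num) (by norm_num)
    have h5 : ∀ i, ((ω ^ 16) ^ i) ^ 5 = 1 := fun i => by
      rw [pow_right_comm, hξ.pow_eq_one, one_pow]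
    have hinj : ∀ i < 5, ∀ i' < 5, lm ((ω ^ 16) ^ i) = lm ((ω ^ 16) ^ i') → i = i' := by
      intro i hi i' hi' h
      have : (ω ^ 16) ^ i * x0 ∈ lm ((ω ^ 16) ^ i') := h ▸ ⟨x0, hx0, rfl⟩
      obtain ⟨t, ht, e1⟩ := this
      have n0 := hne0 _ (h5 i')
      have := zeta_one hq hγ hx0 hx00 (ζ := (ω ^ 16) ^ i / (ω ^ 16) ^ i')
        (by rw [div_pow, h5, h5, div_one])
        (by rw [div_mul_eq_mul_div, ← e1, mul_div_cancel_left₀ _ n0]; exact ht)
      exact hξ.pow_inj hi hi' ((div_eq_one_iff_eq n0).mp this)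
    refine (Set.two_lt_ncard (Set.toFinite _)).mpr
      ⟨_, ⟨_, h5 0, rfl⟩, _, ⟨_, h5 1, rfl⟩, _, ⟨_, h5 2, rfl⟩, ?_, ?_, ?_⟩
    · intro h; have := hinj _ (by omega) _ (by omega) h; omega
    · intro h; have := hinj _ (by omega) _ (by omega) h; omega
    · intro h; have := hinj _ (by omega) _ (by omega) h; omega
  · intro B
    have hb : ∀ x y : F, tr y '' lm x =
        {z | ∃ t : F, γ ^ 4 * t ^ 9 = γ * t ^ 3 + t ∧ z = x * t + y} := by
      intro x y
      ext z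
      constructor
      · rintro ⟨_, ⟨t, ht, rfl⟩, rfl⟩; exact ⟨t, ht, rfl⟩
      · rintro ⟨t, ht, rfl⟩; exact ⟨_, ⟨t, ht, rfl⟩, rfl⟩
    constructor
    · rintro ⟨x, y, hx, rfl⟩; exact ⟨_, ⟨x, hx, rfl⟩, y, (hb x y).symm⟩
    · rintro ⟨_, ⟨x, hx, rfl⟩, y, rfl⟩; exact ⟨x, y, hx, hb x y⟩

end Pool.Agent.MP_f8e15f_co.H24
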