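import Mathlib

namespace Pool.Agent.MP_f8e15f_co.H24

/-- `D` (a set of blocks on the point set `V`) is a `1-(v,k,r)` design. -/
def IsOneDesign {V : Type} (D : Set (Set V)) (k r : ℕ) : Prop :=
  (∀ B ∈ D, B.ncard = k) ∧ ∀ x : V, {B | B ∈ D ∧ x ∈ B}.ncard = r

/-- Some block contains both points. -/
def Coll {V : Type} (D : Set (Set V)) (x y : V) : Prop := ∃ B ∈ D, x ∈ B ∧ y ∈ B

/-- `G` consists of automorphisms of `D` and is transitive on each of the six sets of ordered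
pairs. -/
def PairwiseTransitive {V : Type} (G : Subgroup (Equiv.Perm V)) (D : Set (Set V)) : Prop :=
  (∀ g ∈ G, (fun B : Set V => g '' B) '' D = D) ∧
  (∀ x y x' y' : V, x ≠ y → x' ≠ y' → Coll D x y → Coll D x' y' →
    ∃ g ∈ G, g x = x' ∧ g y = y') ∧
  (∀ x y x' y' : V, x ≠ y → x' ≠ y' → ¬ Coll D x y → ¬ Coll D x' y' →
    ∃ g ∈ G, g x = x' ∧ g y = y') ∧
  (∀ x x' : V, ∀ B ∈ D, ∀ B' ∈ D, x ∈ B → x' ∈ B' → ∃ g ∈ G, g x = x' ∧ g '' B = B') ∧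
  (∀ x x' : V, ∀ B ∈ D, ∀ B' ∈ D, x ∉ B → x' ∉ B' → ∃ g ∈ G, g x = x' ∧ g '' B = B') ∧
  (∀ B ∈ D, ∀ C ∈ D, ∀ B' ∈ D, ∀ C' ∈ D, B ≠ C → B' ≠ C' → (B ∩ C).Nonempty →
    (B' ∩ C').Nonempty → ∃ g ∈ G, g '' B = B' ∧ g '' C = C') ∧
  (∀ B ∈ D, ∀ C ∈ D, ∀ B' ∈ D, ∀ C' ∈ D, B ≠ C → B' ≠ C' → Disjoint B C →
    Disjoint B' C' → ∃ g ∈ G, g '' B = B' ∧ g '' C = C')

/-- `g` lies in the one-dimensional semilinear affine group of the field `F`. -/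
def IsSemiAffine {F : Type} [Field F] (g : Equiv.Perm F) : Prop :=
  ∃ (a b : F) (σ : F ≃+* F), ∀ x, g x = a * σ x + b

/-- All translates of the lines `c x K`, where `K = {t | t ^ n = t}` and `x ^ (ρ (n-1)) = 1`. -/
def cycloNet {F : Type} [Field F] (n ρ : ℕ) (c : F) : Set (Set F) :=
  {B | ∃ x y : F, x ^ (ρ * (n - 1)) = 1 ∧ B = {z | ∃ t : F, t ^ n = t ∧ z = c * x * t + y}}

/-- All translates of the sets `ζ M`, where `M = {t | γ^4 t^9 = γ t^3 + t}` and `ζ ^ 5 = 1`. -/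
def peisertNet {F : Type} [Field F] (γ : F) : Set (Set F) :=
  {B | ∃ ζ y : F, ζ ^ 5 = 1 ∧
    B = {z | ∃ t : F, γ ^ 4 * t ^ 9 = γ * t ^ 3 + t ∧ z = ζ * t + y}}

end Pool.Agent.MP_f8e15f_co.H24
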