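import Pool.Agent.MP_f8e15f_co.H24.Conv3

namespace Pool.Agent.MP_f8e15f_co.H24

open Equiv

theorem main (F : Type) [Field F] [Finite F] (D : Set (Set F)) :
    (∃ k r : ℕ, IsOneDesign D k r ∧ 3 ≤ r ∧ ∃ G : Subgroup (Equiv.Perm F),
      (∀ g ∈ G, IsSemiAffine g) ∧ PairwiseTransitive G D) ↔
    ((4 ≤ Nat.card F ∧ D = {B | ∃ x : F, B = {x}ᶜ}) ∨
     (∃ n ρ : ℕ, (n, ρ) ∈ [(2, 3), (4, 5), (5, 3), (8, 3), (9, 5), (32, 3), (32, 11), (64, 5),
        (64, 13)] ∧ Nat.card F = n ^ 2 ∧ ∃ c : F, c ≠ 0 ∧ D = cycloNet n ρ c) ∨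
     (Nat.card F = 81 ∧ ∃ γ : F, ¬ IsSquare γ ∧ D = peisertNet γ)) := by
  constructor
  · rintro ⟨k, r, hD, h3, G, hG, hP⟩
    have hP' := PT_up hG hP
    haveI := Fintype.ofFinite F
    obtain ⟨p, hp, d, hpp, hq⟩ := FiniteField.card' F
    haveI : Fact p.Prime := ⟨hpp⟩
    rw [Fintype.card_eq_nat_card] at hq
    by_cases hc : ∀ B ∈ D, ∀ t, (B ∩ tr t '' B).Nonempty → B = tr t '' B
    · exact Or.inr (lin_final hq (lin_case hq hD h3 hP' hc) h3)
    · push Not at hc
      obtain ⟨B, hB, t, h1, h2⟩ := hc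
      exact Or.inl (complete_case hq hD h3 hP' hB h1 h2)
  · intro h
    suffices ∃ k r, IsOneDesign D k r ∧ 3 ≤ r ∧ PairwiseTransitive (AutG D) D by
      obtain ⟨k, r, a, b, c⟩ := this
      exact ⟨k, r, a, b, AutG D, fun g hg => hg.1, c⟩
    rcases h with ⟨h4, hD⟩ | ⟨n, ρ, hl, hq, c, hc, rfl⟩ | ⟨hq, γ, hγ, rfl⟩
    · exact conv_complete h4 hD
    · simp only [List.mem_cons, Prod.mk.injEq, List.not_mem_nil, or_false] at hl
      rcases hl with ⟨rfl, rfl⟩ | ⟨rfl, rfl⟩ | ⟨rfl, rfl⟩ | ⟨rfl, rfl⟩ | ⟨rfl, rfl⟩ | ⟨rfl, rfl⟩ |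
        ⟨rfl, rfl⟩ | ⟨rfl, rfl⟩ | ⟨rfl, rfl⟩
      · exact conv_cyclo (p := 2) (b := 1) (e := 1) (by norm_num) (by norm_num) (by norm_num) hq
          (by norm_num) (by norm_num) (by norm_num) (by decide) (by norm_num) (by decide) hc
      · exact conv_cyclo (p := 2) (b := 2) (e := 1) (by norm_num) (by norm_num) (by norm_num) hq
          (by norm_num) (by norm_num) (by norm_num) (by decide) (by norm_num) (by decide) hc
      · exact conv_cyclo (p := 5) (b := 1) (e := 2) (by norm_num) (by norm_num) (by norm_num) hq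
          (by norm_num) (by norm_num) (by norm_num) (by decide) (by norm_num) (by decide) hc
      · exact conv_cyclo (p := 2) (b := 3) (e := 3) (by norm_num) (by norm_num) (by norm_num) hq
          (by norm_num) (by norm_num) (by norm_num) (by decide) (by norm_num) (by decide) hc
      · exact conv_cyclo (p := 3) (b := 2) (e := 2) (by norm_num) (by norm_num) (by norm_num) hq
          (by norm_num) (by norm_num) (by norm_num) (by decide) (by norm_num) (by decide) hc
      · exact conv_cyclo (p := 2) (b := 5) (e := 11) (by norm_num) (by norm_num) (by norm_num) hq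
          (by norm_num) (by norm_num) (by norm_num) (by decide) (by norm_num) (by decide) hc
      · exact conv_cyclo (p := 2) (b := 5) (e := 3) (by norm_num) (by norm_num) (by norm_num) hq
          (by norm_num) (by norm_num) (by norm_num) (by decide) (by norm_num) (by decide) hc
      · exact conv_cyclo (p := 2) (b := 6) (e := 13) (by norm_num) (by norm_num) (by norm_num) hq
          (by norm_num) (by norm_num) (by norm_num) (by decide) (by norm_num) (by decide) hc
      · exact conv_cyclo (p := 2) (b := 6) (e := 5) (by norm_num) (by norm_num) (by norm_num) hq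
          (by norm_num) (by norm_num) (by norm_num) (by decide) (by norm_num) (by decide) hc
    · exact conv_peisert hq hγ

end Pool.Agent.MP_f8e15f_co.H24
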