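import Pool.Agent.MP_f8e15f_co.H24.Basic

namespace Pool.Agent.MP_f8e15f_co.H24

open Equiv Pointwise

variable {F : Type} [Field F] [Finite F]

/-- Stabiliser of `0`. -/
def A0 (D : Set (Set F)) : Subgroup (Perm F) := AutG D ⊓ MulAction.stabilizer (Perm F) (0 : F)

/-- Scalars preserving `D`. -/
def Sc (D : Set (Set F)) : Subgroup Fˣ := (A0 D).comap (MulAction.toPermHom Fˣ F)

/-- Blocks through `0`. -/
def LL (D : Set (Set F)) : Set (Set F) := {B | B ∈ D ∧ (0 : F) ∈ B}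

/-- Translation. -/
def tr (b : F) : Perm F := Equiv.addRight b

/-- Scalar multiplication. -/
def sc (u : Fˣ) : Perm F := MulAction.toPermHom Fˣ F u

omit [Finite F] in
@[simp] theorem tr_apply (b z : F) : tr b z = z + b := rfl

omit [Finite F] in
@[simp] theorem sc_apply (u : Fˣ) (z : F) : sc u z = u * z := rfl

omit [Finite F] in
theorem tr_tr (a b : F) (B : Set F) : tr a '' (tr b '' B) = tr (b + a) '' B := by
  rw [Set.image_image]; simp [add_assoc]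

omit [Finite F] in
theorem tr_zero (B : Set F) : tr 0 '' B = B := by
  have : (tr (0 : F) : F → F) = id := by ext z; simp
  rw [this, Set.image_id]

omit [Finite F] in
theorem conj_tr {g : Perm F} {a b : F} {σ : F ≃+* F} (h : ∀ x, g x = a * σ x + b) (t : F)
    (B : Set F) : g '' (tr t '' B) = tr (a * σ t) '' (g '' B) := by
  rw [Set.image_image, Set.image_image]
  congr 1; ext z; simp [h]; ring

theorem mem_A0 {D : Set (Set F)} {g : Perm F} : g ∈ A0 D ↔ g ∈ AutG D ∧ g 0 = 0 := Iff.rfl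

theorem mem_Sc {D : Set (Set F)} {u : Fˣ} : u ∈ Sc D ↔ sc u ∈ AutG D :=
  ⟨fun h => h.1, fun h => ⟨h, by change sc u 0 = 0; simp⟩⟩

theorem A0_lin {D : Set (Set F)} {g : Perm F} (hg : g ∈ A0 D) :
    ∃ (a : F) (σ : F ≃+* F), ∀ z, g z = a * σ z := by
  obtain ⟨⟨⟨a, b, σ, h⟩, -⟩, h0⟩ := mem_A0.mp hg
  have : b = 0 := by rw [h] at h0; simpa using h0
  exact ⟨a, σ, fun z => by rw [h, this, add_zero]⟩

section main
variable {D : Set (Set F)} {k r : ℕ}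

omit [Field F] in
theorem three_blocks (hD : IsOneDesign D k r) (h3 : 3 ≤ r) (x : F) :
    ∃ B1 ∈ D, ∃ B2 ∈ D, ∃ B3 ∈ D, x ∈ B1 ∧ x ∈ B2 ∧ x ∈ B3 ∧ B1 ≠ B2 ∧ B1 ≠ B3 ∧ B2 ≠ B3 := by
  have : 2 < {B | B ∈ D ∧ x ∈ B}.ncard := by rw [hD.2 x]; omega
  obtain ⟨a, ha, b, hb, c, hc, h⟩ := (Set.two_lt_ncard (Set.toFinite _)).mp this
  exact ⟨a, ha.1, b, hb.1, c, hc.1, ha.2, hb.2, hc.2, h⟩

omit [Field F] in
theorem not_subset (hD : IsOneDesign D k r) {B C : Set F} (hB : B ∈ D) (hC : C ∈ D)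
    (h : B ≠ C) : ∃ y ∈ B, y ∉ C := by
  by_contra hh
  push Not at hh
  exact h (Set.eq_of_subset_of_ncard_le hh (by rw [hD.1 B hB, hD.1 C hC]))

theorem bound_A0 (hP : PairwiseTransitive (AutG D) D) :
    Nat.card F - 1 ≤ 2 * Nat.card (A0 D) := by
  have e : ({0}ᶜ : Set F) = {y | y ≠ 0 ∧ Coll D 0 y} ∪ {y | y ≠ 0 ∧ ¬ Coll D 0 y} := by
    ext y; by_cases h : Coll D 0 y <;> simp [h]
  have h1 : ({y | y ≠ 0 ∧ Coll D 0 y} : Set F).ncard ≤ Nat.card (A0 D) := by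
    apply orbit_le
    intro x hx y hy
    obtain ⟨g, hg, e1, e2⟩ := hP.2.1 0 x 0 y hx.1.symm hy.1.symm hx.2 hy.2
    exact ⟨⟨g, hg, e1⟩, e2⟩
  have h2 : ({y | y ≠ 0 ∧ ¬ Coll D 0 y} : Set F).ncard ≤ Nat.card (A0 D) := by
    apply orbit_le
    intro x hx y hy
    obtain ⟨g, hg, e1, e2⟩ := hP.2.2.1 0 x 0 y hx.1.symm hy.1.symm hx.2 hy.2
    exact ⟨⟨g, hg, e1⟩, e2⟩
  have h3 : ({0}ᶜ : Set F).ncard = Nat.card F - 1 := by
    rw [Set.ncard_compl, Set.ncard_singleton]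
  have h4 := Set.ncard_union_le ({y | y ≠ 0 ∧ Coll D 0 y} : Set F) {y | y ≠ 0 ∧ ¬ Coll D 0 y}
  rw [← e] at h4
  omega

theorem exists_scalar {p d : ℕ} [Fact p.Prime] [CharP F p] (hq : Nat.card F = p ^ d)
    (hD : IsOneDesign D k r) (h3 : 3 ≤ r) (hP : PairwiseTransitive (AutG D) D) :
    ∃ κ ∈ Sc D, κ ≠ 1 := by
  by_contra hh
  push Not at hh
  have h1 : Sc D = ⊥ := (Subgroup.eq_bot_iff_forall _).mpr hh
  obtain ⟨t, ht, hc, -⟩ := card_lin hq (A0 D) (fun g hg => A0_lin hg)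
  have h2 : Nat.card (Sc D) = 1 := by rw [h1]; simp
  change Nat.card (A0 D) = Nat.card (Sc D) * t at hc
  rw [h2, one_mul] at hc
  have hd : 0 < d := by
    rcases Nat.eq_zero_or_pos d with rfl | h
    · have := Finite.one_lt_card (α := F); simp [hq] at this
    · exact h
  have htd : t ≤ d := Nat.le_of_dvd hd ht
  have h4 : r ≤ Nat.card (A0 D) := by
    rw [← hD.2 0]
    apply orbit_le
    intro B hB C hC
    obtain ⟨g, hg, e1, e2⟩ := hP.2.2.2.1 0 0 B hB.1 C hC.1 hB.2 hC.2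
    exact ⟨⟨g, hg, e1⟩, e2⟩
  have h5 := bound_A0 hP
  have h6 : 2 ^ d ≤ p ^ d := Nat.pow_le_pow_left (Fact.out : p.Prime).two_le d
  have : ∀ n, 3 ≤ n → 2 * n + 1 < 2 ^ n := by
    intro n hn
    induction n, hn using Nat.le_induction with
    | base => norm_num
    | succ n hn ih => rw [pow_succ 2 n]; omega
  have := this d (by omega)
  omega

theorem tr_mem {p d : ℕ} [Fact p.Prime] [CharP F p] (hq : Nat.card F = p ^ d)
    (hD : IsOneDesign D k r) (h3 : 3 ≤ r) (hP : PairwiseTransitive (AutG D) D) (b : F) :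
    tr b ∈ AutG D := by
  obtain ⟨κ, hκ, hκ1⟩ := exists_scalar hq hD h3 hP
  have hk : (1 - κ : F) ≠ 0 := fun h => hκ1 (Units.ext (sub_eq_zero.mp h).symm)
  set y : F := b / (1 - κ) with hy
  obtain ⟨B, hB, -, -, -, -, h0, -⟩ := three_blocks hD h3 0
  obtain ⟨C, hC, -, -, -, -, hyC, -⟩ := three_blocks hD h3 y
  obtain ⟨h, hh, e1, -⟩ := hP.2.2.2.1 0 y B hB C hC h0 hyC
  obtain ⟨a, b', σ, hs⟩ := hh.1
  have hb' : b' = y := by rw [hs] at e1; simpa using e1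
  obtain ⟨j, -, hj⟩ := frob_pow hq σ.symm
  have hκ' : sc (κ ^ p ^ j) ∈ AutG D := mem_Sc.mp ((Sc D).pow_mem hκ _)
  have e : tr b = h * sc (κ ^ p ^ j) * h⁻¹ * sc κ⁻¹ := by
    ext z
    obtain ⟨w, hw⟩ := h.surjective (sc κ⁻¹ z)
    have hw' : (h⁻¹ : Perm F) (sc κ⁻¹ z) = w := by rw [← hw]; simp
    simp only [Perm.mul_apply, hw']
    rw [hs] at hw ⊢
    have e2 : σ (sc (κ ^ p ^ j) w) = κ * σ w := by
      rw [sc_apply, map_mul, Units.val_pow_eq_pow_val, ← hj]; simp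
    rw [e2, hb']
    rw [hb', sc_apply] at hw
    have e3 : z = κ * (a * σ w + y) := by rw [hw]; simp
    have e4 : b = (1 - κ) * y := by rw [hy]; field_simp
    rw [tr_apply, e3, e4]; ring
  rw [e]
  exact (AutG D).mul_mem ((AutG D).mul_mem ((AutG D).mul_mem hh hκ') ((AutG D).inv_mem hh))
    (mem_Sc.mp ((Sc D).inv_mem hκ))

theorem complete_case {p d : ℕ} [Fact p.Prime] [CharP F p] (hq : Nat.card F = p ^ d)
    (hD : IsOneDesign D k r) (h3 : 3 ≤ r) (hP : PairwiseTransitive (AutG D) D)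
    {B0 : Set F} (hB0 : B0 ∈ D) {t0 : F} (hm : (B0 ∩ tr t0 '' B0).Nonempty)
    (hne : B0 ≠ tr t0 '' B0) : 4 ≤ Nat.card F ∧ D = {B | ∃ x, B = {x}ᶜ} := by
  have hT := tr_mem hq hD h3 hP
  have hi : ∀ B ∈ D, ∀ C ∈ D, B ≠ C → (B ∩ C).Nonempty → ∃ t, C = tr t '' B := by
    intro B hB C hC h1 h2
    obtain ⟨g, hg, e1, e2⟩ := hP.2.2.2.2.2.1 B0 hB0 _ ((hT t0).2 _ hB0) B hB C hC hne h1 hm h2
    obtain ⟨a, b, σ, hs⟩ := hg.1
    exact ⟨_, by rw [← e2, conj_tr hs, e1]⟩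
  obtain ⟨x0, hx0, -⟩ := hm
  have hk : 0 < k := by rw [← hD.1 B0 hB0]; exact (Set.ncard_pos (Set.toFinite _)).mpr ⟨x0, hx0⟩
  have hii : ∀ B ∈ D, ∃ t, B = tr t '' B0 := by
    intro B hB
    obtain ⟨x, hx⟩ := (Set.ncard_pos (Set.toFinite B)).mp (by rw [hD.1 B hB]; exact hk)
    by_cases h : tr (x - x0) '' B0 = B
    · exact ⟨_, h.symm⟩
    · obtain ⟨t, ht⟩ := hi _ ((hT (x - x0)).2 _ hB0) B hB h ⟨x, ⟨x0, hx0, by simp⟩, hx⟩
      exact ⟨_, by rw [ht, tr_tr]⟩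
  obtain ⟨B1, hB1, B2, hB2, B3, hB3, hx1, hx2, hx3, h12, h13, h23⟩ := three_blocks hD h3 x0
  obtain ⟨y, hy1, hy2⟩ := not_subset hD hB1 hB2 h12
  have hyx : x0 ≠ y := by rintro rfl; exact hy2 hx2
  have hiii : ∀ s, tr s '' B0 = B0 → s = 0 := by
    intro s hs
    by_contra hs0
    have hall : ∀ B ∈ D, ∀ x ∈ B, x + s ∈ B := by
      intro B hB x hx
      obtain ⟨t, rfl⟩ := hii B hB
      obtain ⟨w, hw, rfl⟩ := hx
      refine ⟨w + s, ?_, by simp; ring⟩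
      rw [← hs]; exact ⟨w, hw, rfl⟩
    obtain ⟨g, hg, e1, e2⟩ := hP.2.1 x0 (x0 + s) x0 y (by simpa using hs0) hyx
      ⟨B0, hB0, hx0, hall _ hB0 _ hx0⟩ ⟨B1, hB1, hx1, hy1⟩
    have h1 : x0 ∈ (g⁻¹ : Perm F) '' B2 := ⟨x0, hx2, by nth_rewrite 1 [← e1]; simp⟩
    obtain ⟨w, hw, e3⟩ := hall _ (((AutG D).inv_mem hg).2 _ hB2) _ h1
    apply hy2
    rw [← e2, ← e3]; simpa using hw
  obtain ⟨κ, hκ, hκ1⟩ := exists_scalar hq hD h3 hP
  have hk1 : (κ - 1 : F) ≠ 0 := fun h => hκ1 (Units.ext (sub_eq_zero.mp h))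
  obtain ⟨t, ht⟩ := hii _ ((mem_Sc.mp hκ).2 _ hB0)
  set h : Perm F := tr (-t) * sc κ with hh
  have hhB : h '' B0 = B0 := by rw [hh, img_mul, ht, tr_tr]; simp [tr_zero]
  have hha : ∀ z, h z = κ * z - t := fun z => by simp [hh, sub_eq_add_neg]
  set z0 : F := t / (κ - 1) with hz0
  have hz : κ * z0 - t = z0 := by rw [hz0]; field_simp; ring
  have hiv : ∀ g ∈ AutG D, g '' B0 = B0 → g z0 = z0 := by
    intro g hg hgB
    obtain ⟨a, b, σ, hs⟩ := hg.1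
    set h' : Perm F := g * h * g⁻¹ with hh'
    have hh'B : h' '' B0 = B0 := by
      have : (g⁻¹ : Perm F) '' B0 = B0 := by nth_rewrite 1 [← hgB]; exact img_inv g B0
      rw [hh', img_mul, img_mul, this, hhB, hgB]
    have hh'a : ∀ z, h' z = σ κ * z + (b - σ κ * b - a * σ t) := by
      intro z
      obtain ⟨w, rfl⟩ := g.surjective z
      have : h' (g w) = g (h w) := by simp [hh']
      rw [this, hs, hs, hha]; simp; ring
    set b' := b - σ κ * b - a * σ t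
    have e1 : h * h' = tr (κ * b' - t + σ κ * t - b') * (h' * h) := by
      ext z; simp only [Perm.mul_apply, hha, hh'a, tr_apply]; ring
    have e2 : κ * b' - t + σ κ * t - b' = 0 := by
      apply hiii
      have := img_mul h h' B0
      rw [e1, img_mul, img_mul, hhB, hh'B, hhB] at this
      exact this
    have e3 : σ κ * z0 + b' = z0 := by
      apply mul_left_cancel₀ hk1
      linear_combination e2 + (σ κ - 1) * hz
    have e4 : σ κ * g z0 + b' = g z0 := by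
      rw [← hh'a]
      have : h' (g z0) = g (h z0) := by simp [hh']
      rw [this, hha, hz]
    have hk2 : (σ κ - 1 : F) ≠ 0 := by
      intro h0
      apply hk1
      apply σ.injective
      simpa using h0
    apply mul_left_cancel₀ hk2
    linear_combination e4 - e3
  have hz0B : z0 ∉ B0 := by
    intro hz0B
    have hsing : ∀ x ∈ B0, x = z0 := by
      intro x hx
      obtain ⟨g, hg, e1, e2⟩ := hP.2.2.2.1 z0 x B0 hB0 B0 hB0 hz0B hx
      rw [← e1, hiv g hg e2]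
    obtain ⟨t1, rfl⟩ := hii B1 hB1
    obtain ⟨w, hw, e1⟩ := hx1
    obtain ⟨w', hw', e2⟩ := hy1
    apply hyx
    rw [← e1, ← e2, hsing w hw, hsing w' hw']
  have hB0e : B0 = {z0}ᶜ := by
    ext x
    constructor
    · rintro hx rfl; exact hz0B hx
    · intro hx
      by_contra hxB
      obtain ⟨g, hg, e1, e2⟩ := hP.2.2.2.2.1 z0 x B0 hB0 B0 hB0 hz0B hxB
      exact hx (by rw [← e1, hiv g hg e2]; rfl)
  have htr : ∀ t : F, tr t '' B0 = {z0 + t}ᶜ := by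
    intro t
    rw [hB0e, Set.image_compl_eq (tr t).bijective, Set.image_singleton]; rfl
  have hDe : D = {B | ∃ x, B = {x}ᶜ} := by
    ext B
    constructor
    · intro hB
      obtain ⟨t, rfl⟩ := hii B hB
      exact ⟨_, htr t⟩
    · rintro ⟨x, rfl⟩
      have := (hT (x - z0)).2 _ hB0
      rwa [htr, add_sub_cancel] at this
  refine ⟨?_, hDe⟩
  rw [hDe] at hB1 hB2 hB3
  obtain ⟨x1, rfl⟩ := hB1
  obtain ⟨x2, rfl⟩ := hB2
  obtain ⟨x3, rfl⟩ := hB3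
  have a12 : x1 ≠ x2 := by rintro rfl; exact h12 rfl
  have a13 : x1 ≠ x3 := by rintro rfl; exact h13 rfl
  have a23 : x2 ≠ x3 := by rintro rfl; exact h23 rfl
  have : ({x0, x1, x2, x3} : Set F).ncard = 4 := by
    rw [Set.ncard_eq_four]
    exact ⟨x0, x1, x2, x3, hx1, hx2, hx3, a12, a13, a23, rfl⟩
  rw [← this]
  exact Set.ncard_le_card _

/-- The data of the linear case. -/
structure Lin (D : Set (Set F)) (k r : ℕ) : Prop where
  trm : ∀ b, tr b ∈ AutG D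
  des : IsOneDesign D k r
  add : ∀ M ∈ LL D, ∀ x ∈ M, ∀ y ∈ M, x + y ∈ M
  neg : ∀ M ∈ LL D, ∀ x ∈ M, -x ∈ M
  desc : ∀ B ∈ D, ∃ M ∈ LL D, ∃ y, B = tr y '' M
  sup : ∀ M ∈ LL D, ∀ M' ∈ LL D, M ≠ M' → ∀ z, ∃ x ∈ M, ∃ x' ∈ M', z = x + x'
  two : ∀ M ∈ LL D, ∀ N ∈ LL D, ∀ M' ∈ LL D, ∀ N' ∈ LL D, M ≠ N → M' ≠ N' →
    ∃ g ∈ A0 D, g '' M = M' ∧ g '' N = N'
  inU : ∀ x y : F, x ≠ 0 → y ≠ 0 → Coll D 0 x → Coll D 0 y → ∃ g ∈ A0 D, g x = y
  outU : ∀ x y : F, x ≠ 0 → y ≠ 0 → ¬ Coll D 0 x → ¬ Coll D 0 y → ∃ g ∈ A0 D, g x = y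
  bound : Nat.card F - 1 ≤ 2 * Nat.card (A0 D)

theorem lin_case {p d : ℕ} [Fact p.Prime] [CharP F p] (hq : Nat.card F = p ^ d)
    (hD : IsOneDesign D k r) (h3 : 3 ≤ r) (hP : PairwiseTransitive (AutG D) D)
    (hc : ∀ B ∈ D, ∀ t, (B ∩ tr t '' B).Nonempty → B = tr t '' B) : Lin D k r := by
  have hT := tr_mem hq hD h3 hP
  have hfix : ∀ M ∈ LL D, ∀ x ∈ M, tr x '' M = M := fun M hM x hx =>
    (hc M hM.1 x ⟨x, hx, 0, hM.2, by simp⟩).symm
  have hneg : ∀ M ∈ LL D, ∀ x ∈ M, -x ∈ M := by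
    intro M hM x hx
    have : (0 : F) ∈ tr x '' M := by rw [hfix M hM x hx]; exact hM.2
    obtain ⟨w, hw, e⟩ := this
    have : w = -x := by rw [tr_apply] at e; linear_combination e
    rwa [← this]
  refine ⟨hT, hD, ?_, hneg, ?_, ?_, ?_, ?_, ?_, bound_A0 hP⟩
  · intro M hM x hx y hy
    rw [← hfix M hM y hy]; exact ⟨x, hx, rfl⟩
  · intro B hB
    obtain ⟨B1, hB1, -, -, -, -, hx1, -⟩ := three_blocks hD h3 0
    have hk : 0 < k := by rw [← hD.1 B1 hB1]; exact (Set.ncard_pos (Set.toFinite _)).mpr ⟨0, hx1⟩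
    obtain ⟨x, hx⟩ := (Set.ncard_pos (Set.toFinite B)).mp (by rw [hD.1 B hB]; exact hk)
    refine ⟨tr (-x) '' B, ⟨(hT _).2 _ hB, x, hx, by simp⟩, x, ?_⟩
    rw [tr_tr]; simp [tr_zero]
  · intro M hM M' hM' hne z
    by_contra hh
    push Not at hh
    have hdis : Disjoint M (tr z '' M') := by
      rw [Set.disjoint_left]
      rintro x hx ⟨w, hw, e⟩
      exact hh x hx (-w) (hneg M' hM' w hw) (by rw [tr_apply] at e; linear_combination e)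
    obtain ⟨w, -, hw⟩ := not_subset hD hM'.1 hM.1 hne.symm
    have hdis2 : Disjoint M (tr w '' M) := by
      rw [Set.disjoint_iff_inter_eq_empty]
      by_contra h0
      have := hc M hM.1 w (Set.nonempty_iff_ne_empty.mpr h0)
      exact hw (by rw [this]; exact ⟨0, hM.2, by simp⟩)
    have n1 : M ≠ tr w '' M := fun e => Set.disjoint_left.mp hdis2 hM.2 (e ▸ hM.2)
    have n2 : M ≠ tr z '' M' := fun e => Set.disjoint_left.mp hdis hM.2 (e ▸ hM.2)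
    obtain ⟨g, hg, e1, e2⟩ := hP.2.2.2.2.2.2 M hM.1 _ ((hT w).2 _ hM.1) M hM.1 _
      ((hT z).2 _ hM'.1) n1 n2 hdis2 hdis
    obtain ⟨a, b, σ, hs⟩ := hg.1
    rw [conj_tr hs, e1] at e2
    have e3 : M' = tr (a * σ w + -z) '' M := by rw [← tr_tr, e2, tr_tr]; simp [tr_zero]
    have h0 := hM'.2
    rw [e3] at h0
    obtain ⟨u, hu, e4⟩ := h0
    have e5 : a * σ w + -z = -u := by rw [tr_apply] at e4; linear_combination e4
    rw [e5, hfix M hM _ (hneg M hM u hu)] at e3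
    exact hne e3.symm
  · intro M hM N hN M' hM' N' hN' h1 h2
    obtain ⟨g, hg, e1, e2⟩ := hP.2.2.2.2.2.1 M hM.1 N hN.1 M' hM'.1 N' hN'.1 h1 h2
      ⟨0, hM.2, hN.2⟩ ⟨0, hM'.2, hN'.2⟩
    have a1 : g 0 ∈ M' := e1 ▸ ⟨0, hM.2, rfl⟩
    have a2 : g 0 ∈ N' := e2 ▸ ⟨0, hN.2, rfl⟩
    refine ⟨tr (-g 0) * g, ⟨(AutG D).mul_mem (hT _) hg, ?_⟩, ?_, ?_⟩
    · change (tr (-g 0) * g) 0 = 0
      simp
    · rw [img_mul, e1, hfix M' hM' _ (hneg M' hM' _ a1)]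
    · rw [img_mul, e2, hfix N' hN' _ (hneg N' hN' _ a2)]
  · intro x y hx hy h1 h2
    obtain ⟨g, hg, e1, e2⟩ := hP.2.1 0 x 0 y hx.symm hy.symm h1 h2
    exact ⟨g, ⟨hg, e1⟩, e2⟩
  · intro x y hx hy h1 h2
    obtain ⟨g, hg, e1, e2⟩ := hP.2.2.1 0 x 0 y hx.symm hy.symm h1 h2
    exact ⟨g, ⟨hg, e1⟩, e2⟩

end main

end Pool.Agent.MP_f8e15f_co.H24
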