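import Mathlib

namespace Pool.Agent.MP_f8e15f_co.H24

theorem two_pow_le_cube {d : ℕ} (h : 2 ^ d ≤ d ^ 3) : d ≤ 9 := by
  by_contra hd
  have hd : 10 ≤ d := by omega
  have : ∀ n, 10 ≤ n → n ^ 3 < 2 ^ n := by
    intro n hn
    induction n, hn using Nat.le_induction with
    | base => norm_num
    | succ n hn ih =>
      have : (n + 1) ^ 3 ≤ 2 * n ^ 3 := by nlinarith [Nat.mul_le_mul hn hn, Nat.mul_le_mul hn (Nat.mul_le_mul hn hn), Nat.mul_le_mul hn (le_refl (n * n))]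
      rw [pow_succ 2 n]; omega
  have := this d hd
  omega

theorem num1 {p c E r l : ℕ} (hp : p.Prime) (hc : 1 ≤ c) (hr : r.Prime) (h3 : 3 ≤ r)
    (hrd : r - 1 ≤ 2 * c + E) (h : (p ^ (c + E) - 1) * l = (r - 1) * (p ^ E - 1)) : E = 0 := by
  by_contra hE
  have hE : 1 ≤ E := by omega
  have hp2 := hp.two_le
  have hX : 2 ≤ p ^ E := le_trans hp2 (Nat.le_self_pow (by omega) p)
  have hY : 2 ≤ p ^ c := le_trans hp2 (Nat.le_self_pow (by omega) p)
  set X := p ^ E with hXd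
  set Y := p ^ c with hYd
  have hXY : p ^ (c + E) = Y * X := pow_add _ _ _
  rw [hXY] at h
  obtain ⟨R, hR⟩ : ∃ R, r = R + 1 := ⟨r - 1, by omega⟩
  obtain ⟨X', hX'⟩ : ∃ X', X = X' + 1 := ⟨X - 1, by omega⟩
  obtain ⟨W, hW⟩ : ∃ W, Y * X = W + 1 := ⟨Y * X - 1, by
    have : 0 < Y * X := Nat.mul_pos (by omega) (by omega)
    omega⟩
  obtain ⟨Y', hY'⟩ : ∃ Y', Y = Y' + 1 := ⟨Y - 1, by omega⟩
  have h' : W * l = R * X' := by
    rw [hW, hR, hX'] at h; simpa using h
  have hl : 1 ≤ l := by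
    rcases Nat.eq_zero_or_pos l with h0 | h0
    · rw [h0] at h'
      have : 0 < R * X' := Nat.mul_pos (by omega) (by omega)
      omega
    · exact h0
  set d := 2 * c + E with hd
  have hRd : R ≤ d := by omega
  have hYd' : Y ≤ d := by
    by_contra hh
    have h1 : d + 1 ≤ Y := by omega
    have h2 : W ≤ R * X' := by nlinarith
    have h3 : R * X' ≤ d * X' := Nat.mul_le_mul_right _ hRd
    have h4 : (d + 1) * X ≤ Y * X := Nat.mul_le_mul_right _ h1
    rw [hX'] at h4 hW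
    nlinarith
  have hdvd : W ∣ R * Y' := by
    have h1 : W ∣ R * X' * Y := Dvd.dvd.mul_right ⟨l, h'.symm⟩ _
    have h2 : R * W = R * X' * Y + R * Y' := by
      have : W = X' * Y + Y' := by rw [hX'] at hW; nlinarith
      rw [this]; ring
    exact (Nat.dvd_add_right h1).mp (h2 ▸ Dvd.intro_left R rfl)
  have hW2 : W ≤ R * Y' := Nat.le_of_dvd (Nat.mul_pos (by omega) (by omega)) hdvd
  have hW3 : Y * X ≤ d * d := by
    have : R * Y' ≤ d * Y' := Nat.mul_le_mul_right _ hRd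
    nlinarith
  have hpd : p ^ d ≤ d ^ 3 := by
    have : p ^ d = Y * (Y * X) := by rw [hd, hYd, hXd]; ring
    rw [this]
    calc Y * (Y * X) ≤ d * (d * d) := Nat.mul_le_mul hYd' hW3
      _ = d ^ 3 := by ring
  have hd9 : d ≤ 9 := two_pow_le_cube (le_trans (Nat.pow_le_pow_left hp2 d) hpd)
  have hp9 : p ≤ 9 := le_trans (le_trans (Nat.le_self_pow (by omega) p) hYd') hd9
  have hdv : (p ^ (c + E) - 1) ∣ (r - 1) * (p ^ E - 1) := by
    rw [hXY]; exact ⟨l, h.symm⟩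
  have hc4 : c ≤ 4 := by omega
  have hE7 : E ≤ 7 := by omega
  have hr10 : r ≤ 10 := by omega
  have hd' : 2 * c + E ≤ 9 := hd9
  have hrd' : r - 1 ≤ 2 * c + E := hrd
  clear_value d X Y
  clear h h' hXY hXd hYd hpd hW3 hW2 hdvd hYd' hRd hd hl hW hX' hY' hX hY hR hrd hd9
  have hp' : p = 2 ∨ p = 3 ∨ p = 5 ∨ p = 7 := by
    interval_cases p <;> simp_all (config := {decide := true})
  have hr' : r = 3 ∨ r = 5 ∨ r = 7 := by
    interval_cases r <;> simp_all (config := {decide := true})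
  rcases hp' with rfl | rfl | rfl | rfl <;> rcases hr' with rfl | rfl | rfl <;>
    interval_cases c <;> interval_cases E <;> first | omega | (revert hdv; decide)

theorem two_pow_le_four_mul {x : ℕ} (h : 2 ^ x ≤ 4 * x) : x ≤ 4 := by
  by_contra hd
  have hd : 5 ≤ x := by omega
  have : ∀ n, 5 ≤ n → 4 * n < 2 ^ n := by
    intro n hn
    induction n, hn using Nat.le_induction with
    | base => norm_num
    | succ n hn ih => rw [pow_succ 2 n]; omega
  have := this x hd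
  omega

theorem num2 {p b m r t : ℕ} (hp : p.Prime) (hb : 1 ≤ b) (hm : 2 ≤ m) (hr : r.Prime) (h3 : 3 ≤ r)
    (hrd : r - 1 ≤ 2 * b * m) (ht : t ∣ 2 * b * m)
    (h1 : ((p ^ b) ^ m - 1) ∣ (p ^ b - 1) * t)
    (h2 : r * (p ^ b - 1) ∣ ((p ^ b) ^ m) ^ 2 - 1)
    (h4 : ((p ^ b) ^ m) ^ 2 - 1 ≤ 2 * (r * (p ^ b - 1) * (2 * b * m))) :
    p = 3 ∧ b = 1 ∧ m = 2 ∧ r = 5 ∧ t = 4 := by
  have hp2 := hp.two_le
  have hs : 2 ≤ p ^ b := le_trans hp2 (Nat.le_self_pow (by omega) p)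
  have hd0 : 0 < 2 * b * m := by positivity
  have ht0 : 0 < t := Nat.pos_of_dvd_of_pos ht hd0
  have htd : t ≤ 2 * b * m := Nat.le_of_dvd hd0 ht
  have h5 : (p ^ b) ^ m - 1 ≤ (p ^ b - 1) * t := Nat.le_of_dvd (Nat.mul_pos (by omega) ht0) h1
  obtain ⟨m', rfl⟩ : ∃ m', m = m' + 1 := ⟨m - 1, by omega⟩
  have h6 : (p ^ b) ^ m' ≤ t := by
    by_contra hh
    have hh : t + 1 ≤ (p ^ b) ^ m' := by omega
    obtain ⟨s', hs'⟩ : ∃ s', p ^ b = s' + 1 := ⟨p ^ b - 1, by omega⟩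
    have h7 : (t + 1) * (s' + 1) ≤ (p ^ b) ^ (m' + 1) := by
      rw [pow_succ, ← hs']; exact Nat.mul_le_mul_right _ hh
    have h8 : p ^ b - 1 = s' := by omega
    rw [h8] at h5
    have : (t + 1) * (s' + 1) = s' * t + t + s' + 1 := by ring
    omega
  have h7 : 2 * b * (m' + 1) ≤ 4 * (b * m') := by nlinarith
  have h8 : b * m' ≤ 4 := by
    apply two_pow_le_four_mul
    calc 2 ^ (b * m') ≤ p ^ (b * m') := Nat.pow_le_pow_left hp2 _
      _ = (p ^ b) ^ m' := pow_mul _ _ _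
      _ ≤ _ := by omega
  have hb4 : b ≤ 4 := by nlinarith
  have hm4 : m' ≤ 4 := by nlinarith
  have hp16 : p ≤ 16 := by
    calc p ≤ p ^ b := Nat.le_self_pow (by omega) p
      _ ≤ (p ^ b) ^ m' := Nat.le_self_pow (by omega) _
      _ ≤ 16 := by omega
  have h9 : (p ^ b) ^ (m' + 1) - 1 ≤ (p ^ b - 1) * (2 * b * (m' + 1)) :=
    le_trans h5 (Nat.mul_le_mul_left _ htd)
  have hm1 : 1 ≤ m' := by omega
  have key : (p = 2 ∧ b = 1 ∧ m' = 1) ∨ (p = 2 ∧ b = 2 ∧ m' = 1) ∨ (p = 2 ∧ b = 3 ∧ m' = 1) ∨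
      (p = 3 ∧ b = 1 ∧ m' = 1) := by
    clear h1 h2 h4 h5 h6 h7 ht htd hrd hs hd0
    interval_cases p <;> interval_cases b <;> interval_cases m' <;>
      first | omega | (exfalso; revert h9; decide) | (exfalso; revert hp; decide)
  rcases key with ⟨rfl, rfl, rfl⟩ | ⟨rfl, rfl, rfl⟩ | ⟨rfl, rfl, rfl⟩ | ⟨rfl, rfl, rfl⟩
  · exfalso
    norm_num at ht h1 htd
    interval_cases t <;> omega
  · exfalso
    norm_num at hrd h2 h4
    have : r ≤ 9 := by omega
    interval_cases r <;> omega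
  · exfalso
    norm_num at hrd h2 h4
    omega
  · norm_num at hrd h2 h4 ht h1 htd
    have : r ≤ 5 := by omega
    refine ⟨rfl, rfl, rfl, ?_, ?_⟩
    · interval_cases r
      · omega
      · exact absurd hr (by decide)
      · rfl
    · interval_cases t <;> omega

theorem num3 {p c r e : ℕ} (hp : p.Prime) (hc : 1 ≤ c) (hr : r.Prime) (h3 : 3 ≤ r)
    (he : e = 1 ∨ e.Prime) (hrd : r - 1 ≤ 2 * c) (hed : e - 1 ≤ 2 * c) (h : p ^ c + 1 = r * e) :
    (p ^ c, r) ∈ [(2, 3), (4, 5), (5, 3), (8, 3), (9, 5), (32, 3), (32, 11), (64, 5), (64, 13)] := by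
  have hp2 := hp.two_le
  have h1 : r * e ≤ (2 * c + 1) * (2 * c + 1) := Nat.mul_le_mul (by omega) (by omega)
  have hc8 : c ≤ 8 := by
    by_contra hh
    have hh : 9 ≤ c := by omega
    have : ∀ n, 9 ≤ n → (2 * n + 1) * (2 * n + 1) < 2 ^ n := by
      intro n hn
      induction n, hn using Nat.le_induction with
      | base => norm_num
      | succ n hn ih => rw [pow_succ 2 n]; nlinarith
    have h2 := this c hh
    have h3 : 2 ^ c ≤ p ^ c := Nat.pow_le_pow_left hp2 c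
    omega
  have hp8 : p ≤ 8 := by
    by_contra hh
    have h3 : 9 ^ c ≤ p ^ c := Nat.pow_le_pow_left (by omega) c
    interval_cases c <;> omega
  have hr17 : r ≤ 17 := by omega
  have he17 : e ≤ 17 := by omega
  have hp' : p = 2 ∨ p = 3 ∨ p = 5 ∨ p = 7 := by
    interval_cases p <;> simp_all (config := {decide := true})
  have hr' : r = 3 ∨ r = 5 ∨ r = 7 ∨ r = 11 ∨ r = 13 ∨ r = 17 := by
    clear h h1 hrd
    interval_cases r <;> simp_all (config := {decide := true})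
  have he4 : e ≠ 4 := by
    rintro rfl
    rcases he with he | he
    · omega
    · exact absurd he (by decide)
  clear h1 he
  rcases hp' with rfl | rfl | rfl | rfl <;> rcases hr' with rfl | rfl | rfl | rfl | rfl | rfl <;>
    interval_cases c <;> first | (exfalso; omega) | decide

end Pool.Agent.MP_f8e15f_co.H24
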