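import Pool.Agent.MP_f8e15f_co.H24.Fwd1
import Pool.Agent.MP_f8e15f_co.H24.Num

namespace Pool.Agent.MP_f8e15f_co.H24

open Equiv Pointwise

variable {F : Type} [Field F] [Finite F]

/-- Image of a unit under a field automorphism. -/
def su (σ : F ≃+* F) (u : Fˣ) : Fˣ := Units.map (σ : F →* F) u

omit [Finite F] in
@[simp] theorem su_val (σ : F ≃+* F) (u : Fˣ) : (su σ u : F) = σ u := rfl

omit [Finite F] in
theorem conj_sc {g : Perm F} {a : F} {σ : F ≃+* F} (h : ∀ x, g x = a * σ x) (u : Fˣ)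
    (B : Set F) : g '' (sc u '' B) = sc (su σ u) '' (g '' B) := by
  rw [Set.image_image, Set.image_image]
  congr 1; ext z; simp [h]; ring

omit [Finite F] in
theorem sc_sc (u v : Fˣ) (B : Set F) : sc u '' (sc v '' B) = sc (u * v) '' B := by
  rw [Set.image_image]; simp [mul_assoc]

omit [Finite F] in
theorem sc_one (B : Set F) : sc 1 '' B = B := by
  have : (sc (1 : Fˣ) : F → F) = id := by ext z; simp
  rw [this, Set.image_id]

omit [Finite F] in
theorem sc_semi (u : Fˣ) (z : F) : sc u z = u * (RingEquiv.refl F) z + 0 := by simp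

theorem A0_LL {D : Set (Set F)} {g : Perm F} (hg : g ∈ A0 D) {M : Set F} (hM : M ∈ LL D) :
    g '' M ∈ LL D := ⟨hg.1.2 _ hM.1, 0, hM.2, hg.2⟩

theorem Sc_A0 {D : Set (Set F)} {u : Fˣ} (hu : u ∈ Sc D) : sc u ∈ A0 D := hu

section main
variable {D : Set (Set F)} {k r : ℕ} {p d : ℕ} [Fact p.Prime] [CharP F p]

theorem su_mem (hq : Nat.card F = p ^ d) (C : Subgroup Fˣ) (σ : F ≃+* F) {u : Fˣ} (hu : u ∈ C) :
    su σ u ∈ C := by
  obtain ⟨j, -, hj⟩ := frob_pow hq σ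
  have : su σ u = u ^ p ^ j := Units.ext (by simp [hj])
  rw [this]; exact C.pow_mem hu _

theorem aut_comm (hq : Nat.card F = p ^ d) (σ τ : F ≃+* F) (z : F) : σ (τ z) = τ (σ z) := by
  obtain ⟨j, -, hj⟩ := frob_pow hq σ
  rw [hj, hj, map_pow]

theorem sc_trans (hq : Nat.card F = p ^ d) (h : Lin D k r) (h3 : 3 ≤ r) {M M' : Set F}
    (hM : M ∈ LL D) (hM' : M' ∈ LL D) : ∃ u ∈ Sc D, sc u '' M = M' := by
  by_cases e : M = M'
  · exact ⟨1, (Sc D).one_mem, by rw [sc_one, e]⟩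
  have : ∃ u ∈ Sc D, ∃ N ∈ LL D, N ≠ sc u '' N := by
    by_contra hh
    push Not at hh
    obtain ⟨B1, hB1, B2, hB2, B3, hB3, x1, x2, x3, h12, h13, h23⟩ := three_blocks h.des h3 0
    obtain ⟨g, hg, e1, e2⟩ := h.two B1 ⟨hB1, x1⟩ B2 ⟨hB2, x2⟩ B1 ⟨hB1, x1⟩ B3 ⟨hB3, x3⟩ h12 h13
    obtain ⟨g', hg', e3, e4⟩ := h.two B1 ⟨hB1, x1⟩ B2 ⟨hB2, x2⟩ B2 ⟨hB2, x2⟩ B1 ⟨hB1, x1⟩ h12
      h12.symm
    obtain ⟨a, σ, hs⟩ := A0_lin hg
    obtain ⟨a', σ', hs'⟩ := A0_lin hg'
    have ha : a ≠ 0 := mult_ne_zero (g := g) (b := 0) (σ := σ) (fun x => by simp [hs])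
    have ha' : a' ≠ 0 := mult_ne_zero (g := g') (b := 0) (σ := σ') (fun x => by simp [hs'])
    have n1 : a' * σ' a ≠ 0 := mul_ne_zero ha' (by simpa using ha)
    have n2 : a * σ a' ≠ 0 := mul_ne_zero ha (by simpa using ha')
    set u : Fˣ := Units.mk0 (a * σ a' / (a' * σ' a)) (div_ne_zero n2 n1) with hu
    have e5 : g * g' = sc u * (g' * g) := by
      ext z
      simp only [Perm.mul_apply, hs, hs', sc_apply, map_mul, hu, Units.val_mk0]
      rw [aut_comm hq σ σ' z]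
      have n3 : σ' a ≠ 0 := by simpa using ha
      field_simp
    have hu2 : u ∈ Sc D := by
      rw [mem_Sc]
      have : sc u = g * g' * (g' * g)⁻¹ := by rw [e5, mul_inv_cancel_right]
      rw [this]
      exact (AutG D).mul_mem ((AutG D).mul_mem hg.1 hg'.1)
        ((AutG D).inv_mem ((AutG D).mul_mem hg'.1 hg.1))
    have := img_mul g g' B1
    rw [e5, img_mul, img_mul, e1, e3, e2, ← hh u hu2 B2 ⟨hB2, x2⟩] at this
    exact h23 this
  obtain ⟨u, hu, N, hN, hne⟩ := this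
  obtain ⟨g, hg, e1, e2⟩ := h.two N hN _ (A0_LL (Sc_A0 hu) hN) M hM M' hM' hne e
  obtain ⟨a, σ, hs⟩ := A0_lin hg
  rw [conj_sc hs, e1] at e2
  exact ⟨_, su_mem hq _ σ hu, e2⟩

/-- Multipliers of an additive subgroup. -/
def KF (h : Lin D k r) {M : Set F} (hM : M ∈ LL D) : Subfield F where
  carrier := {κ | ∀ x ∈ M, κ * x ∈ M}
  mul_mem' := fun {a b} ha hb x hx => by rw [mul_assoc]; exact ha _ (hb x hx)
  one_mem' := fun x hx => by rwa [one_mul]
  add_mem' := fun {a b} ha hb x hx => by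
    rw [add_mul]; exact h.add M hM _ (ha x hx) _ (hb x hx)
  zero_mem' := fun x _ => by rw [zero_mul]; exact hM.2
  neg_mem' := fun {a} ha x hx => by rw [neg_mul]; exact h.neg M hM _ (ha x hx)
  inv_mem' := fun a ha x hx => by
    by_cases h0 : a = 0
    · rw [h0, inv_zero, zero_mul]; exact hM.2
    · have h1 : (fun x => a * x) '' M = M := by
        refine Set.eq_of_subset_of_ncard_le ?_ ?_ (Set.toFinite _)
        · rintro _ ⟨y, hy, rfl⟩; exact ha y hy
        · rw [Set.ncard_image_of_injective _ (mul_right_injective₀ h0)]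
      rw [← h1] at hx
      obtain ⟨y, hy, rfl⟩ := hx
      simpa [h0] using hy

/-- Its unit group. -/
def C0 (h : Lin D k r) {M : Set F} (hM : M ∈ LL D) : Subgroup Fˣ := (KF h hM).toSubmonoid.units

theorem mem_C0 (h : Lin D k r) {M : Set F} (hM : M ∈ LL D) (u : Fˣ) :
    u ∈ C0 h hM ↔ (u : F) ∈ KF h hM := by
  rw [C0, Submonoid.mem_units_iff]
  refine ⟨fun a => a.1, fun a => ⟨a, ?_⟩⟩
  rw [Units.val_inv_eq_inv_val]
  exact (KF h hM).inv_mem a

theorem stab_iff (h : Lin D k r) {M : Set F} (hM : M ∈ LL D) (u : Fˣ) :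
    sc u '' M = M ↔ u ∈ C0 h hM := by
  rw [mem_C0]
  constructor
  · intro e x hx
    rw [← e]; exact ⟨x, hx, rfl⟩
  · intro hu
    refine Set.eq_of_subset_of_ncard_le ?_ ?_ (Set.toFinite _)
    · rintro _ ⟨y, hy, rfl⟩; exact hu y hy
    · rw [Set.ncard_image_of_injective _ (sc u).injective]

theorem card_C0 (h : Lin D k r) {M : Set F} (hM : M ∈ LL D) :
    Nat.card (C0 h hM) = Nat.card (KF h hM) - 1 := by
  rw [← Nat.card_units]
  exact Nat.card_congr (KF h hM).toSubmonoid.unitsEquivUnitsType.toEquiv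

theorem K_all (hq : Nat.card F = p ^ d) (h : Lin D k r) (h3 : 3 ≤ r) {M : Set F} (hM : M ∈ LL D)
    {N : Set F} (hN : N ∈ LL D) {κ : F} (hκ : κ ∈ KF h hM) {x : F} (hx : x ∈ N) : κ * x ∈ N := by
  obtain ⟨u, -, rfl⟩ := sc_trans hq h h3 hM hN
  obtain ⟨y, hy, rfl⟩ := hx
  exact ⟨κ * y, hκ y hy, by simp; ring⟩

theorem C0_le (hq : Nat.card F = p ^ d) (h : Lin D k r) (h3 : 3 ≤ r) {M : Set F} (hM : M ∈ LL D) :
    C0 h hM ≤ Sc D := by
  intro u hu
  rw [mem_Sc]
  refine ⟨⟨_, _, _, sc_semi u⟩, fun B hB => ?_⟩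
  obtain ⟨N, hN, y, rfl⟩ := h.desc B hB
  have : sc u '' N = N := (stab_iff h hN u).mpr ((mem_C0 h hN u).mpr
    (fun x hx => K_all hq h h3 hM hN ((mem_C0 h hM u).mp hu) hx))
  rw [conj_tr (sc_semi u), this]
  exact (h.trm _).2 _ hN.1

theorem card_Sc (hq : Nat.card F = p ^ d) (h : Lin D k r) (h3 : 3 ≤ r) {M : Set F}
    (hM : M ∈ LL D) : Nat.card (Sc D) = r * (Nat.card (KF h hM) - 1) := by
  have h1 : MulAction.orbit (Sc D) M = LL D := by
    ext N
    constructor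
    · rintro ⟨u, rfl⟩; exact A0_LL (Sc_A0 u.2) hM
    · intro hN
      obtain ⟨u, hu, e⟩ := sc_trans hq h h3 hM hN
      exact ⟨⟨u, hu⟩, e⟩
  have h2 : MulAction.stabilizer (Sc D) M = (C0 h hM).subgroupOf (Sc D) := by
    ext u
    rw [MulAction.mem_stabilizer_iff, Subgroup.mem_subgroupOf, ← stab_iff h hM]
    rfl
  rw [← (MulAction.stabilizer (Sc D) M).index_mul_card, MulAction.index_stabilizer, h1, h2,
    Nat.card_congr (Subgroup.subgroupOfEquivOfLe (C0_le hq h h3 hM)).toEquiv, card_C0]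
  congr 1
  exact h.des.2 0

theorem exists_prim (C : Subgroup Fˣ) : ∃ u ∈ C, IsPrimitiveRoot (u : F) (Nat.card C) := by
  obtain ⟨u, hu⟩ := IsCyclic.exists_ofOrder_eq_natCard (α := C)
  refine ⟨u.1, u.2, ?_⟩
  rw [IsPrimitiveRoot.coe_units_iff, ← hu, ← Subgroup.orderOf_coe]
  exact IsPrimitiveRoot.orderOf _

theorem r_prime (hq : Nat.card F = p ^ d) (h : Lin D k r) (h3 : 3 ≤ r) :
    r.Prime ∧ r - 1 ≤ d := by
  obtain ⟨M, hM1, -, -, -, -, hM2, -⟩ := three_blocks h.des h3 0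
  have hM : M ∈ LL D := ⟨hM1, hM2⟩
  obtain ⟨u, hu, hpr⟩ := exists_prim (Sc D)
  set s1 := Nat.card (KF h hM) - 1 with hs1
  have hη : IsPrimitiveRoot ((u : F) ^ s1) r :=
    hpr.pow Nat.card_pos (by rw [card_Sc hq h h3 hM, mul_comm])
  have key : ∀ v : Fˣ, sc v '' M = M ↔ (v : F) ^ s1 = 1 := by
    intro v
    rw [stab_iff h hM, mem_iff_pow, card_C0, ← hs1, ← Units.val_pow_eq_pow_val, Units.val_eq_one]
  have := root_lemma hq hη (by omega) (fun i i' hi hi' => by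
    have n : ∀ i, ((u : F) ^ s1) ^ i ≠ 1 → M ≠ sc (u ^ i) '' M := fun i hi e => hi (by
      have := (key _).mp e.symm
      rw [← this, Units.val_pow_eq_pow_val, ← pow_mul, ← pow_mul, mul_comm])
    obtain ⟨g, hg, e1, e2⟩ := h.two M hM _ (A0_LL (Sc_A0 ((Sc D).pow_mem hu i)) hM) M hM _
      (A0_LL (Sc_A0 ((Sc D).pow_mem hu i')) hM) (n i hi) (n i' hi')
    obtain ⟨a, σ, hs⟩ := A0_lin hg
    rw [conj_sc hs, e1] at e2
    have e3 : sc ((u ^ i')⁻¹ * su σ (u ^ i)) '' M = M := by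
      rw [← sc_sc, e2, sc_sc]; simp [sc_one]
    have e4 := (key _).mp e3
    refine ⟨σ, ?_⟩
    have hu0 : (u : F) ≠ 0 := u.ne_zero
    simp only [Units.val_mul, Units.val_inv_eq_inv_val, su_val, Units.val_pow_eq_pow_val,
      mul_pow, inv_pow] at e4
    rw [inv_mul_eq_one₀ (by positivity)] at e4
    rw [← pow_mul, ← pow_mul, mul_comm s1, mul_comm s1, pow_mul, pow_mul, map_pow, e4])
  exact ⟨this.1.resolve_left (by omega), this.2⟩

/-- A block through `0` as a vector space over the multiplier field. -/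
def subm (hq : Nat.card F = p ^ d) (h : Lin D k r) (h3 : 3 ≤ r) {M : Set F} (hM : M ∈ LL D)
    {N : Set F} (hN : N ∈ LL D) : Submodule (KF h hM) F where
  carrier := N
  add_mem' := fun {a b} ha hb => h.add N hN a ha b hb
  zero_mem' := hN.2
  smul_mem' := fun c _ hx => K_all hq h h3 hM hN c.2 hx

theorem lam_const {g : Perm F} (hg : g ∈ A0 D) (x : F) :
    {N | N ∈ LL D ∧ g x ∈ N}.ncard = {N | N ∈ LL D ∧ x ∈ N}.ncard := by
  have : {N | N ∈ LL D ∧ g x ∈ N} = (fun B : Set F => g '' B) '' {N | N ∈ LL D ∧ x ∈ N} := by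
    ext N
    constructor
    · rintro ⟨h1, h2⟩
      exact ⟨_, ⟨A0_LL ((A0 D).inv_mem hg) h1, g x, h2, by simp⟩, img_inv' g N⟩
    · rintro ⟨N', ⟨h1, h2⟩, rfl⟩
      exact ⟨A0_LL hg h1, x, h2, rfl⟩
  rw [this, Set.ncard_image_of_injective _ (fun _ _ e => img_inj g e)]

theorem dims (hq : Nat.card F = p ^ d) (h : Lin D k r) (h3 : 3 ≤ r) {M : Set F}
    (hM : M ∈ LL D) : ∃ b m : ℕ, 1 ≤ b ∧ 1 ≤ m ∧ Nat.card (KF h hM) = p ^ b ∧ k = (p ^ b) ^ m ∧
      d = 2 * b * m ∧ ∀ N ∈ LL D, N ≠ M → ∀ x ∈ N, x ∈ M → x = 0 := by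
  classical
  have hp : p.Prime := Fact.out
  obtain ⟨b, -, hb⟩ := (Nat.dvd_prime_pow hp).mp
    (hq ▸ AddSubgroup.card_addSubgroup_dvd_card (KF h hM).toAddSubgroup)
  change Nat.card (KF h hM) = p ^ b at hb
  have hs2 : 1 < p ^ b := hb ▸ Finite.one_lt_card
  have hb1 : 1 ≤ b := by
    rcases Nat.eq_zero_or_pos b with rfl | h0
    · simp at hs2
    · exact h0
  have hcard : ∀ S : Submodule (KF h hM) F,
      (S : Set F).ncard = (p ^ b) ^ Module.finrank (KF h hM) S := by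
    intro S
    rw [← hb, ← Module.natCard_eq_pow_finrank]; rfl
  set a := Module.finrank (KF h hM) F with ha
  set m := Module.finrank (KF h hM) (subm hq h h3 hM hM) with hm
  have hk : k = (p ^ b) ^ m := by rw [← h.des.1 M hM.1]; exact hcard (subm hq h h3 hM hM)
  have hd : d = b * a := by
    have : Nat.card F = (p ^ b) ^ a := by rw [← hb, ← Module.natCard_eq_pow_finrank]
    rw [hq, ← pow_mul] at this
    exact Nat.pow_right_injective hp.two_le this
  have hfr : ∀ N (hN : N ∈ LL D), N ≠ M → ∃ e, a + e = 2 * m ∧ (N ∩ M).ncard = (p ^ b) ^ e := by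
    intro N hN hne
    have h1 : Module.finrank (KF h hM) (subm hq h h3 hM hN) = m := by
      have := hcard (subm hq h h3 hM hN)
      change N.ncard = _ at this
      rw [h.des.1 N hN.1] at this
      exact (Nat.pow_right_injective hs2 (hk.symm.trans this)).symm
    have h2 : subm hq h h3 hM hN ⊔ subm hq h h3 hM hM = ⊤ := by
      rw [eq_top_iff]
      intro z _
      obtain ⟨x, hx, x', hx', rfl⟩ := h.sup N hN M hM hne z
      exact Submodule.add_mem_sup hx hx'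
    have h4 := Submodule.finrank_sup_add_finrank_inf_eq (subm hq h h3 hM hN) (subm hq h h3 hM hM)
    rw [h2, finrank_top, h1] at h4
    exact ⟨_, by omega, hcard (subm hq h h3 hM hN ⊓ subm hq h h3 hM hM)⟩
  obtain ⟨N0, hN0, hne0⟩ : ∃ N ∈ LL D, N ≠ M := by
    obtain ⟨B1, hB1, B2, hB2, -, -, x1, x2, -, h12, -⟩ := three_blocks h.des h3 0
    by_cases e : B1 = M
    · exact ⟨B2, ⟨hB2, x2⟩, fun e' => h12 (e.trans e'.symm)⟩
    · exact ⟨B1, ⟨hB1, x1⟩, e⟩
  obtain ⟨e, he, -⟩ := hfr N0 hN0 hne0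
  have hma : m < a := by
    obtain ⟨y, -, hy⟩ := not_subset h.des hN0.1 hM.1 hne0
    apply Submodule.finrank_lt
    intro ht
    apply hy
    have : y ∈ subm hq h h3 hM hM := ht ▸ Submodule.mem_top
    exact this
  obtain ⟨x0, hx0, hx0N⟩ := not_subset h.des hM.1 hN0.1 hne0.symm
  have hx00 : x0 ≠ 0 := by rintro rfl; exact hx0N hN0.2
  have hcount := Finset.card_mul_eq_card_mul (s := (Set.toFinite (M \ {0})).toFinset)
    (t := (Set.toFinite (LL D \ {M})).toFinset) (fun x N => x ∈ N)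
    (m := {N | N ∈ LL D ∧ x0 ∈ N}.ncard - 1) (n := (p ^ b) ^ e - 1) (fun x hx => by
      rw [Set.Finite.mem_toFinset] at hx
      obtain ⟨g, hg, e1⟩ := h.inU x0 x hx00 hx.2 ⟨M, hM.1, hM.2, hx0⟩ ⟨M, hM.1, hM.2, hx.1⟩
      rw [← lam_const hg, e1, ← Set.ncard_diff_singleton_of_mem (a := M)
        (s := {N | N ∈ LL D ∧ x ∈ N}) ⟨hM, hx.1⟩,
        ← Set.ncard_coe_finset]
      congr 1
      ext N
      simp only [Finset.bipartiteAbove, Finset.coe_filter, Set.Finite.mem_toFinset,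
        Set.mem_diff, Set.mem_setOf_eq]
      tauto) (fun N hN => by
      rw [Set.Finite.mem_toFinset] at hN
      obtain ⟨e', he', h5⟩ := hfr N hN.1 hN.2
      have : e' = e := by omega
      rw [← this, ← h5, ← Set.ncard_diff_singleton_of_mem (a := (0 : F)) (s := N ∩ M)
        ⟨hN.1.2, hM.2⟩,
        ← Set.ncard_coe_finset]
      congr 1
      ext x
      simp only [Finset.bipartiteBelow, Finset.coe_filter, Set.Finite.mem_toFinset,
        Set.mem_diff, Set.mem_setOf_eq, Set.mem_inter_iff]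
      tauto)
  rw [← Set.ncard_eq_toFinset_card, ← Set.ncard_eq_toFinset_card,
    Set.ncard_diff_singleton_of_mem hM.2, Set.ncard_diff_singleton_of_mem hM, h.des.1 M hM.1,
    show (LL D).ncard = r from h.des.2 0, hk, ← pow_mul, ← pow_mul] at hcount
  obtain ⟨c, hc⟩ : ∃ c, a = m + c := ⟨a - m, by omega⟩
  have hm2 : m = c + e := by omega
  have hrp := r_prime hq h h3
  have hE : b * e = 0 := by
    apply num1 (c := b * c) hp (Nat.mul_pos hb1 (by omega)) hrp.1 h3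
    · have : d = 2 * (b * c) + b * e := by rw [hd, hc, hm2]; ring
      omega
    · rw [hm2, mul_add b c e] at hcount
      exact hcount
  have he0 : e = 0 := by
    rcases Nat.mul_eq_zero.mp hE with h0 | h0 <;> omega
  refine ⟨b, m, hb1, by omega, hb, hk, ?_, ?_⟩
  · rw [hd, show a = 2 * m by omega]; ring
  · intro N hN hne x hx hxM
    obtain ⟨e', he', h5⟩ := hfr N hN hne
    rw [show e' = 0 by omega, pow_zero, Set.ncard_eq_one] at h5
    obtain ⟨w, hw⟩ := h5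
    have a1 : x ∈ N ∩ M := ⟨hx, hxM⟩
    have a2 : (0 : F) ∈ N ∩ M := ⟨hN.2, hM.2⟩
    rw [hw] at a1 a2
    exact a1.trans a2.symm

end main

end Pool.Agent.MP_f8e15f_co.H24
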