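import Pool.Agent.MP_f8e15f_co.H24.Fwd2

namespace Pool.Agent.MP_f8e15f_co.H24

open Equiv Pointwise Polynomial

variable {F : Type} [Field F] [Finite F]

/-- The kernel in the Peisert case. -/
def MP (γ : F) : Set F := {t | γ ^ 4 * t ^ 9 = γ * t ^ 3 + t}

omit [Finite F] in
theorem MP_card_le {γ : F} (h0 : γ ≠ 0) : (MP γ).ncard ≤ 9 := by
  classical
  set P : F[X] := C (γ ^ 4) * X ^ 9 - C γ * X ^ 3 - X with hP
  have hdeg : P.natDegree = 9 := by rw [hP]; compute_degree!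
  have hne : P ≠ 0 := by intro e; rw [e] at hdeg; simp at hdeg
  have : MP γ = (P.roots.toFinset : Set F) := by
    ext t
    rw [Finset.mem_coe, Multiset.mem_toFinset, mem_roots hne]
    simp only [MP, Set.mem_setOf_eq, IsRoot.def, hP, eval_sub, eval_mul, eval_C, eval_pow, eval_X]
    constructor <;> intro e <;> linear_combination e
  rw [this, Set.ncard_coe_finset, ← hdeg]
  exact le_trans (Multiset.toFinset_card_le _) (card_roots' P)

theorem pow_card_units {u : F} (hu : u ≠ 0) : u ^ (Nat.card F - 1) = 1 := by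
  have := pow_card_eq_one' (x := Units.mk0 u hu)
  rw [Nat.card_units] at this
  exact congrArg Units.val this

theorem exists_gen : ∃ ω : F, ω ≠ 0 ∧ IsPrimitiveRoot ω (Nat.card F - 1) := by
  obtain ⟨u, -, hu⟩ := exists_prim (⊤ : Subgroup Fˣ)
  rw [Subgroup.card_top, Nat.card_units] at hu
  exact ⟨u, u.ne_zero, hu⟩

section main
variable {D : Set (Set F)} {k r : ℕ} {p d : ℕ} [Fact p.Prime] [CharP F p]

theorem desc_iff (hq : Nat.card F = p ^ d) (h : Lin D k r) (h3 : 3 ≤ r) {M : Set F}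
    (hM : M ∈ LL D) (B : Set F) : B ∈ D ↔ ∃ u ∈ Sc D, ∃ y, B = tr y '' (sc u '' M) := by
  constructor
  · intro hB
    obtain ⟨N, hN, y, rfl⟩ := h.desc B hB
    obtain ⟨u, hu, rfl⟩ := sc_trans hq h h3 hM hN
    exact ⟨u, hu, y, rfl⟩
  · rintro ⟨u, hu, y, rfl⟩
    exact (h.trm y).2 _ (A0_LL (Sc_A0 hu) hM).1

theorem cyclo_case (hq : Nat.card F = p ^ d) (h : Lin D k r) (h3 : 3 ≤ r) {M : Set F}
    (hM : M ∈ LL D) {b : ℕ} (hb : 1 ≤ b) (hs : Nat.card (KF h hM) = p ^ b) (hk : k = p ^ b)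
    (hd : d = 2 * b) :
    ∃ n ρ : ℕ, (n, ρ) ∈ [(2, 3), (4, 5), (5, 3), (8, 3), (9, 5), (32, 3), (32, 11), (64, 5),
      (64, 13)] ∧ Nat.card F = n ^ 2 ∧ ∃ c : F, c ≠ 0 ∧ D = cycloNet n ρ c := by
  have hp : p.Prime := Fact.out
  set n := p ^ b with hn
  have hn2 : 1 < n := hs ▸ Finite.one_lt_card
  have hq2 : Nat.card F = n ^ 2 := by rw [hq, hd, hn, ← pow_mul, mul_comm]
  obtain ⟨c, hcM, hc0⟩ := Set.exists_ne_of_one_lt_ncard (s := M)
    (by rw [h.des.1 M hM.1, hk]; exact hn2) 0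
  have hK : ∀ t : F, t ∈ KF h hM ↔ t ^ n = t := by
    intro t
    by_cases h0 : t = 0
    · rw [h0, zero_pow (by omega)]; simp
    · have := mem_C0 h hM (Units.mk0 t h0)
      rw [mem_iff_pow, card_C0, hs, ← Units.val_eq_one, Units.val_pow_eq_pow_val,
        Units.val_mk0] at this
      rw [← this]
      have e : t ^ n = t ^ (n - 1) * t := by rw [← pow_succ, Nat.sub_add_cancel hn2.le]
      rw [e, mul_eq_right₀ h0]
  have hMe : M = (fun t => c * t) '' (KF h hM : Set F) := by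
    symm
    refine Set.eq_of_subset_of_ncard_le ?_ ?_ (Set.toFinite _)
    · rintro _ ⟨t, ht, rfl⟩
      have := ht c hcM
      rwa [mul_comm] at this
    · rw [Set.ncard_image_of_injective _ (mul_right_injective₀ hc0), h.des.1 M hM.1]
      exact le_of_eq (hk.trans hs.symm)
  have hS : ∀ u : Fˣ, u ∈ Sc D ↔ (u : F) ^ (r * (n - 1)) = 1 := by
    intro u
    rw [mem_iff_pow, card_Sc hq h h3 hM, hs, ← Units.val_eq_one, Units.val_pow_eq_pow_val]
  have hblock : ∀ (u : Fˣ) (y : F), tr y '' (sc u '' M) =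
      {z | ∃ t : F, t ^ n = t ∧ z = c * u * t + y} := by
    intro u y
    ext z
    constructor
    · rintro ⟨_, ⟨x, hx, rfl⟩, rfl⟩
      rw [hMe] at hx
      obtain ⟨t, ht, rfl⟩ := hx
      exact ⟨t, (hK t).mp ht, by simp; ring⟩
    · rintro ⟨t, ht, rfl⟩
      refine ⟨_, ⟨c * t, ?_, rfl⟩, by simp; ring⟩
      rw [hMe]; exact ⟨t, (hK t).mpr ht, rfl⟩
  have hrp := r_prime hq h h3
  have hdvd : r * (n - 1) ∣ Nat.card F - 1 := by
    rw [← Nat.card_units, ← hs, ← card_Sc hq h h3 hM]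
    exact Subgroup.card_subgroup_dvd_card _
  have hfac : Nat.card F - 1 = (n + 1) * (n - 1) := by
    rw [hq2, ← Nat.sq_sub_sq]
  obtain ⟨e, he⟩ : r ∣ n + 1 := by
    rw [hfac] at hdvd
    exact Nat.dvd_of_mul_dvd_mul_right (by omega) hdvd
  have he0 : 0 < e := Nat.pos_of_ne_zero (by rintro rfl; simp at he)
  obtain ⟨ω, hω0, hω⟩ := exists_gen (F := F)
  have hη : IsPrimitiveRoot (ω ^ (r * (n - 1))) e :=
    hω.pow (by rw [hfac]; exact Nat.mul_pos (by omega) (by omega)) (by rw [hfac, he]; ring)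
  have hcoll : ∀ y : F, y ≠ 0 → Coll D 0 y → ∃ v : F, v ^ (r * (n - 1)) = 1 ∧ y = c * v := by
    rintro y hy ⟨N, hN, h0, hyN⟩
    obtain ⟨u, hu, rfl⟩ := sc_trans hq h h3 hM ⟨hN, h0⟩
    obtain ⟨x, hx, rfl⟩ := hyN
    rw [hMe] at hx
    obtain ⟨t, ht, rfl⟩ := hx
    have ht0 : t ≠ 0 := by rintro rfl; simp at hy
    have := (hS _).mp ((Sc D).mul_mem hu
      (C0_le hq h h3 hM ((mem_C0 h hM (Units.mk0 t ht0)).mpr ht)))
    exact ⟨_, this, by simp; ring⟩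
  have hroot := root_lemma hq hη he0 (fun i i' hi hi' => by
    have nc : ∀ i, (ω ^ (r * (n - 1))) ^ i ≠ 1 → ¬ Coll D 0 (c * ω ^ i) := fun i hi hc => by
      obtain ⟨v, hv, e1⟩ := hcoll _ (mul_ne_zero hc0 (pow_ne_zero _ hω0)) hc
      apply hi
      rw [← pow_mul, mul_comm, pow_mul, mul_left_cancel₀ hc0 e1, hv]
    obtain ⟨g, hg, e1⟩ := h.outU _ _ (mul_ne_zero hc0 (pow_ne_zero i hω0))
      (mul_ne_zero hc0 (pow_ne_zero i' hω0)) (nc i hi) (nc i' hi')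
    obtain ⟨a, σ, hs⟩ := A0_lin hg
    have hgc : g c ≠ 0 := fun e => hc0 (g.injective (e.trans (mem_A0.mp hg).2.symm))
    obtain ⟨v, hv, e2⟩ := hcoll (g c) hgc ⟨_, (A0_LL hg hM).1, (A0_LL hg hM).2, c, hcM, rfl⟩
    rw [hs] at e1 e2
    rw [map_mul, ← mul_assoc, e2, mul_assoc] at e1
    have e3 := mul_left_cancel₀ hc0 e1
    refine ⟨σ, ?_⟩
    rw [← pow_mul, ← pow_mul, mul_comm _ i, mul_comm _ i', pow_mul ω i, pow_mul ω i', ← e3, mul_pow, hv,
      one_mul, map_pow])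
  refine ⟨n, r, num3 hp hb hrp.1 h3 hroot.1 (hd ▸ hrp.2) (hd ▸ hroot.2) he, hq2, c, hc0, ?_⟩
  ext B
  rw [desc_iff hq h h3 hM]
  constructor
  · rintro ⟨u, hu, y, rfl⟩
    exact ⟨u, y, (hS u).mp hu, hblock u y⟩
  · rintro ⟨x, y, hx, rfl⟩
    have hx0 : x ≠ 0 := by
      rintro rfl
      rw [zero_pow (Nat.mul_pos (by omega) (by omega)).ne'] at hx
      exact zero_ne_one hx
    exact ⟨Units.mk0 x hx0, (hS _).mpr hx, y, (hblock (Units.mk0 x hx0) y).symm⟩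

end main

theorem peisert_desc {D : Set (Set F)} {M : Set F} {γ : F} (hMe : M = MP γ)
    (hneg : ∀ x ∈ M, -x ∈ M)
    (hD : ∀ B, B ∈ D ↔ ∃ u : Fˣ, (u : F) ^ 10 = 1 ∧ ∃ y, B = tr y '' (sc u '' M)) :
    D = peisertNet γ := by
  have hblock : ∀ (u : Fˣ) (y : F), tr y '' (sc u '' M) =
      {z | ∃ t : F, γ ^ 4 * t ^ 9 = γ * t ^ 3 + t ∧ z = u * t + y} := by
    intro u y
    ext z
    constructor
    · rintro ⟨_, ⟨x, hx, rfl⟩, rfl⟩
      rw [hMe] at hx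
      exact ⟨x, hx, by simp⟩
    · rintro ⟨t, ht, rfl⟩
      exact ⟨_, ⟨t, by rw [hMe]; exact ht, rfl⟩, by simp⟩
  ext B
  rw [hD]
  constructor
  · rintro ⟨u, hu, y, rfl⟩
    have : ((u : F) ^ 5 - 1) * ((u : F) ^ 5 + 1) = 0 := by linear_combination hu
    rcases mul_eq_zero.mp this with e | e
    · exact ⟨u, y, by linear_combination e, hblock u y⟩
    · refine ⟨(-u : Fˣ), y, by simp only [Units.val_neg]; linear_combination -e, ?_⟩
      rw [← hblock]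
      congr 1
      ext z
      constructor
      · rintro ⟨x, hx, rfl⟩; exact ⟨-x, hneg x hx, by simp⟩
      · rintro ⟨x, hx, rfl⟩; exact ⟨-x, hneg x hx, by simp⟩
  · rintro ⟨x, y, hx, rfl⟩
    have hx0 : x ≠ 0 := by rintro rfl; simp at hx
    refine ⟨Units.mk0 x hx0, ?_, y, (hblock (Units.mk0 x hx0) y).symm⟩
    rw [Units.val_mk0, show 10 = 5 * 2 from rfl, pow_mul, hx, one_pow]

omit [Finite F] in
theorem cube_add [CharP F 3] (x y : F) : (x + y) ^ 3 = x ^ 3 + y ^ 3 :=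
  haveI : Fact (Nat.Prime 3) := ⟨by norm_num⟩
  add_pow_char x y 3

theorem MP_step {γ t : F} (ht : t ∈ MP γ) [CharP F 3] : γ * t ^ 3 ∈ MP γ := by
  have ht' : γ ^ 4 * t ^ 9 = γ * t ^ 3 + t := ht
  change γ ^ 4 * (γ * t ^ 3) ^ 9 = γ * (γ * t ^ 3) ^ 3 + γ * t ^ 3
  have : (γ ^ 4 * t ^ 9) ^ 3 = (γ * t ^ 3) ^ 3 + t ^ 3 := by rw [ht', cube_add]
  linear_combination γ * this

omit [Finite F] in
theorem MP_neg {γ t : F} (ht : t ∈ MP γ) : -t ∈ MP γ := by
  have ht' : γ ^ 4 * t ^ 9 = γ * t ^ 3 + t := ht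
  change γ ^ 4 * (-t) ^ 9 = γ * (-t) ^ 3 + -t
  linear_combination -ht'

theorem MP_img [CharP F 3] (hq : Nat.card F = 81) {γ : F} (hγ : γ ^ 40 = -1) (x : F) :
    γ ^ 4 * x ^ 9 + γ * x ^ 3 - x ∈ MP γ := by
  have h81 : x ^ 81 = x := by
    by_cases h0 : x = 0
    · rw [h0]; simp
    · have := pow_card_units h0
      rw [hq] at this
      norm_num at this
      linear_combination x * this
  have h3 : (3 : F) = 0 := CharP.cast_eq_zero F 3
  have e1 : (γ ^ 4 * x ^ 9 + γ * x ^ 3 - x) ^ 3 = γ ^ 12 * x ^ 27 + γ ^ 3 * x ^ 9 - x ^ 3 := by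
    rw [sub_eq_add_neg, cube_add, cube_add]; ring
  have e2 : (γ ^ 4 * x ^ 9 + γ * x ^ 3 - x) ^ 9 = γ ^ 36 * x ^ 81 + γ ^ 9 * x ^ 27 - x ^ 9 := by
    rw [show 9 = 3 * 3 from rfl, pow_mul _ 3 3, e1, sub_eq_add_neg, cube_add, cube_add]; ring
  change γ ^ 4 * (γ ^ 4 * x ^ 9 + γ * x ^ 3 - x) ^ 9 =
    γ * (γ ^ 4 * x ^ 9 + γ * x ^ 3 - x) ^ 3 + (γ ^ 4 * x ^ 9 + γ * x ^ 3 - x)
  rw [e1, e2, h81]
  linear_combination x * hγ - γ ^ 4 * x ^ 9 * h3

theorem not_sq (hq : Nat.card F = 81) [CharP F 3] {γ : F} (hγ : γ ^ 40 = -1) : ¬ IsSquare γ := by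
  rintro ⟨δ, rfl⟩
  have h3 : (3 : F) = 0 := CharP.cast_eq_zero F 3
  have h0 : δ ≠ 0 := by rintro rfl; simp at hγ
  have := pow_card_units h0
  rw [hq] at this
  norm_num at this
  have : (1 : F) = 0 := by linear_combination h3 - hγ + this
  exact one_ne_zero this

theorem peisert_case {D : Set (Set F)} {k : ℕ} [Fact (Nat.Prime 3)] [CharP F 3]
    (hq : Nat.card F = 3 ^ 4) (h : Lin D k 5) {M : Set F} (hM : M ∈ LL D)
    (hs : Nat.card (KF h hM) = 3) (hk : k = 9)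
    (hint : ∀ N ∈ LL D, N ≠ M → ∀ x ∈ N, x ∈ M → x = 0)
    {g : Perm F} (hgM : g '' M = M) {γ : F} (hg : ∀ z, g z = γ * z ^ 3) :
    ∃ γ : F, ¬ IsSquare γ ∧ D = peisertNet γ := by
  have h3 : 3 ≤ 5 := by norm_num
  have hq' : Nat.card F = 81 := hq
  have hγ0 : γ ≠ 0 := by
    rintro rfl
    have : g 0 = g 1 := by rw [hg, hg]; simp
    exact zero_ne_one (g.injective this)
  have hS : ∀ u : Fˣ, u ∈ Sc D ↔ (u : F) ^ 10 = 1 := by
    intro u
    rw [mem_iff_pow, card_Sc hq h h3 hM, hs, ← Units.val_eq_one, Units.val_pow_eq_pow_val]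
  have hC : ∀ u : Fˣ, sc u '' M = M → (u : F) = 1 ∨ (u : F) = -1 := by
    intro u hu
    rw [stab_iff h hM, mem_iff_pow, card_C0, hs, ← Units.val_eq_one,
      Units.val_pow_eq_pow_val] at hu
    exact sq_eq_one_iff.mp hu
  have hstep : ∀ x ∈ M, γ * x ^ 3 ∈ M := fun x hx => by rw [← hg, ← hgM]; exact ⟨x, hx, rfl⟩
  have hgj : ∀ j : ℕ, (g ^ j) '' M = M ∧ ∃ a : F, a ≠ 0 ∧ ∀ z, (g ^ j) z = a * z ^ 3 ^ j := by
    intro j
    induction j with
    | zero => exact ⟨by simp, 1, one_ne_zero, by simp⟩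
    | succ j ih =>
      obtain ⟨e, a, ha, e2⟩ := ih
      refine ⟨by rw [pow_succ', img_mul, e, hgM], γ * a ^ 3, by positivity, fun z => ?_⟩
      rw [pow_succ', Perm.mul_apply, hg, e2, pow_succ 3 j, pow_mul]; ring
  have horb : ∀ x ∈ M, x ≠ 0 → ∀ y ∈ M, y ≠ 0 → ∃ j < 4, y = (g ^ j) x ∨ y = -(g ^ j) x := by
    intro x hx hx0 y hy hy0
    obtain ⟨f, hf, e1⟩ := h.inU x y hx0 hy0 ⟨M, hM.1, hM.2, hx⟩ ⟨M, hM.1, hM.2, hy⟩
    have hfM : f '' M = M := by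
      by_contra hne
      exact hy0 (hint _ (A0_LL hf hM) hne y ⟨x, hx, e1⟩ hy)
    obtain ⟨a, σ, hσ⟩ := A0_lin hf
    have ha : a ≠ 0 := mult_ne_zero (g := f) (b := 0) (σ := σ) (fun x => by simp [hσ])
    obtain ⟨j, hj, e2⟩ := frob_pow hq σ
    obtain ⟨e3, a', ha', e4⟩ := hgj j
    have e5 : f = sc (Units.mk0 (a / a') (div_ne_zero ha ha')) * g ^ j := by
      ext z
      rw [Perm.mul_apply, e4, hσ, e2, sc_apply, Units.val_mk0]; field_simp
    have e6 := hfM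
    rw [e5, img_mul, e3] at e6
    refine ⟨j, hj, ?_⟩
    rw [← e1, e5, Perm.mul_apply, sc_apply]
    rcases hC _ e6 with e | e <;> rw [e] <;> simp
  have hcM : M.ncard = 9 := by rw [h.des.1 M hM.1, hk]
  obtain ⟨x, hxM, hx0⟩ := Set.exists_ne_of_one_lt_ncard (s := M) (by rw [hcM]; norm_num) 0
  have hγ : γ ^ 40 = -1 := by
    have h80 := pow_card_units hγ0
    have hx80 := pow_card_units hx0
    rw [hq'] at h80 hx80
    norm_num at h80 hx80
    have : (γ ^ 40 - 1) * (γ ^ 40 + 1) = 0 := by linear_combination h80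
    rcases mul_eq_zero.mp this with e | e
    swap
    · linear_combination e
    exfalso
    have hκ0 : γ ^ 4 * x ^ 8 ≠ 0 := by positivity
    have hκ : Units.mk0 _ hκ0 ∈ Sc D := by
      rw [hS, Units.val_mk0]; linear_combination x ^ 80 * e + hx80
    have hg2 : γ * (γ * x ^ 3) ^ 3 = γ ^ 4 * x ^ 8 * x := by ring
    have hfix : sc (Units.mk0 _ hκ0) '' M = M := by
      by_contra hne
      have := hint _ (A0_LL (Sc_A0 hκ) hM) hne (γ ^ 4 * x ^ 8 * x) ⟨x, hxM, rfl⟩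
        (hg2 ▸ hstep _ (hstep _ hxM))
      exact mul_ne_zero hκ0 hx0 this
    have hsub : M ⊆ {0, x, -x, γ * x ^ 3, -(γ * x ^ 3)} := by
      intro y hy
      by_cases hy0 : y = 0
      · simp [hy0]
      obtain ⟨j, hj, e1⟩ := horb x hxM hx0 y hy hy0
      have g0 : (g ^ 0) x = x := by simp
      have g1 : (g ^ 1) x = γ * x ^ 3 := by simp [hg]
      have g2 : (g ^ 2) x = x ∨ (g ^ 2) x = -x := by
        rw [pow_two, Perm.mul_apply, hg, hg, hg2]
        rcases hC _ hfix with e | e <;> rw [Units.val_mk0] at e <;> rw [e] <;> simp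
      have g3 : (g ^ 3) x = γ * x ^ 3 ∨ (g ^ 3) x = -(γ * x ^ 3) := by
        rw [pow_succ', Perm.mul_apply, hg]
        rcases g2 with e | e <;> rw [e]
        · left; rfl
        · right; ring
      simp only [Set.mem_insert_iff, Set.mem_singleton_iff]
      interval_cases j
      · rw [g0] at e1; tauto
      · rw [g1] at e1; tauto
      · rcases g2 with e | e <;> rw [e] at e1 <;> (try simp only [neg_neg] at e1) <;> tauto
      · rcases g3 with e | e <;> rw [e] at e1 <;> (try simp only [neg_neg] at e1) <;> tauto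
    have h1 := Set.ncard_le_ncard hsub (Set.toFinite _)
    have h2 : ({0, x, -x, γ * x ^ 3, -(γ * x ^ 3)} : Set F).ncard ≤ 5 := by
      refine le_trans (Set.ncard_insert_le _ _) (Nat.succ_le_succ ?_)
      refine le_trans (Set.ncard_insert_le _ _) (Nat.succ_le_succ ?_)
      refine le_trans (Set.ncard_insert_le _ _) (Nat.succ_le_succ ?_)
      refine le_trans (Set.ncard_insert_le _ _) (Nat.succ_le_succ ?_)
      simp
    omega
  have hfin : ∀ δ : F, (δ = γ ∨ δ = -γ) → ∀ w ∈ M, w ≠ 0 → w ∈ MP δ →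
      ∃ γ : F, ¬ IsSquare γ ∧ D = peisertNet γ := by
    intro δ hδ w hw hw0 hwP
    have hδ40 : δ ^ 40 = -1 := by rcases hδ with rfl | rfl <;> linear_combination hγ
    have hδ0 : δ ≠ 0 := by rcases hδ with rfl | rfl <;> simpa using hγ0
    have hj : ∀ j : ℕ, (g ^ j) w ∈ MP δ := by
      intro j
      induction j with
      | zero => simpa using hwP
      | succ j ih =>
        rw [pow_succ', Perm.mul_apply, hg]
        rcases hδ with rfl | rfl
        · exact MP_step ih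
        · have := MP_neg (MP_step ih)
          rwa [neg_mul, neg_neg] at this
    have hMe : M = MP δ := by
      refine Set.eq_of_subset_of_ncard_le ?_ (hcM ▸ MP_card_le hδ0) (Set.toFinite _)
      intro y hy
      by_cases hy0 : y = 0
      · rw [hy0]; simp [MP]
      obtain ⟨j, -, e | e⟩ := horb w hw hw0 y hy hy0
      · rw [e]; exact hj j
      · rw [e]; exact MP_neg (hj j)
    refine ⟨δ, not_sq hq' hδ40, peisert_desc hMe (h.neg M hM) (fun B => ?_)⟩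
    rw [desc_iff hq h h3 hM]
    simp only [hS]
  by_cases hw : γ ^ 4 * x ^ 9 + γ * x ^ 3 - x = 0
  · refine hfin (-γ) (Or.inr rfl) x hxM hx0 ?_
    change (-γ) ^ 4 * x ^ 9 = -γ * x ^ 3 + x
    linear_combination hw
  · refine hfin γ (Or.inl rfl) _ ?_ hw (MP_img hq' hγ x)
    have e : γ ^ 4 * x ^ 9 + γ * x ^ 3 - x = γ * (γ * x ^ 3) ^ 3 + γ * x ^ 3 + -x := by ring
    rw [e]
    exact h.add M hM _ (h.add M hM _ (hstep _ (hstep _ hxM)) _ (hstep _ hxM)) _ (h.neg M hM _ hxM)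

theorem lin_final {D : Set (Set F)} {k r : ℕ} {p d : ℕ} [Fact p.Prime] [CharP F p]
    (hq : Nat.card F = p ^ d) (h : Lin D k r) (h3 : 3 ≤ r) :
    (∃ n ρ : ℕ, (n, ρ) ∈ [(2, 3), (4, 5), (5, 3), (8, 3), (9, 5), (32, 3), (32, 11), (64, 5),
      (64, 13)] ∧ Nat.card F = n ^ 2 ∧ ∃ c : F, c ≠ 0 ∧ D = cycloNet n ρ c) ∨
    (Nat.card F = 81 ∧ ∃ γ : F, ¬ IsSquare γ ∧ D = peisertNet γ) := by
  have hp : p.Prime := Fact.out
  obtain ⟨M, hM1, -, -, -, -, hM2, -⟩ := three_blocks h.des h3 0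
  have hM : M ∈ LL D := ⟨hM1, hM2⟩
  obtain ⟨b, m, hb, hm, hs, hk, hd, hint⟩ := dims hq h h3 hM
  rcases Nat.eq_or_lt_of_le hm with rfl | hm2
  · exact Or.inl (cyclo_case hq h h3 hM hb hs (by simpa using hk) (by simpa using hd))
  right
  set A1 : Subgroup (Perm F) := A0 D ⊓ MulAction.stabilizer (Perm F) M with hA1
  have memA1 : ∀ g, g ∈ A1 ↔ g ∈ A0 D ∧ g '' M = M := fun g => Iff.rfl
  obtain ⟨t, ht, hc, hall⟩ := card_lin hq A1 (fun g hg => A0_lin hg.1)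
  have e1 : A1.comap (MulAction.toPermHom Fˣ F) = C0 h hM := by
    ext u
    rw [Subgroup.mem_comap, memA1]
    exact ⟨fun a => (stab_iff h hM u).mp a.2,
      fun a => ⟨C0_le hq h h3 hM a, (stab_iff h hM u).mpr a⟩⟩
  rw [e1, card_C0, hs] at hc
  have hs2 : 1 < p ^ b := hs ▸ Finite.one_lt_card
  have hk2 : 1 < k := by rw [hk]; exact Nat.one_lt_pow (by omega) hs2
  obtain ⟨x, hxM, hx0⟩ := Set.exists_ne_of_one_lt_ncard (s := M)
    (by rw [h.des.1 M hM.1]; exact hk2) 0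
  have hdv : (M \ {0}).ncard ∣ Nat.card A1 := by
    apply orbit_dvd x
    intro y
    constructor
    · rintro ⟨hy, hy0⟩
      obtain ⟨f, hf, e1⟩ := h.inU x y hx0 hy0 ⟨M, hM.1, hM.2, hxM⟩ ⟨M, hM.1, hM.2, hy⟩
      have hfM : f '' M = M := by
        by_contra hne
        exact hy0 (hint _ (A0_LL hf hM) hne y ⟨x, hxM, e1⟩ hy)
      exact ⟨⟨f, (memA1 f).mpr ⟨hf, hfM⟩⟩, e1⟩
    · rintro ⟨⟨f, hf⟩, rfl⟩
      obtain ⟨hf1, hf2⟩ := (memA1 f).mp hf
      refine ⟨?_, fun e => hx0 (f.injective (Eq.trans e (mem_A0.mp hf1).2.symm))⟩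
      rw [← hf2]; exact ⟨x, hxM, rfl⟩
  rw [Set.ncard_diff_singleton_of_mem hM.2, h.des.1 M hM.1, hc] at hdv
  have hq2 : Nat.card F = ((p ^ b) ^ m) ^ 2 := by
    rw [hq, hd, ← pow_mul, ← pow_mul]; congr 1; ring
  have hrp := r_prime hq h h3
  have hdvd : r * (p ^ b - 1) ∣ Nat.card F - 1 := by
    rw [← Nat.card_units, ← hs, ← card_Sc hq h h3 hM]
    exact Subgroup.card_subgroup_dvd_card _
  obtain ⟨t', ht', hc', -⟩ := card_lin hq (A0 D) (fun g hg => A0_lin hg)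
  change Nat.card (A0 D) = Nat.card (Sc D) * t' at hc'
  rw [card_Sc hq h h3 hM, hs] at hc'
  have hbd : Nat.card F - 1 ≤ 2 * (r * (p ^ b - 1) * d) := by
    refine le_trans h.bound (Nat.mul_le_mul_left _ ?_)
    rw [hc']
    exact Nat.mul_le_mul_left _ (Nat.le_of_dvd (by rw [hd]; positivity) ht')
  obtain ⟨rfl, rfl, rfl, rfl, rfl⟩ := num2 hp hb hm2 hrp.1 h3 (hd ▸ hrp.2) (hd ▸ ht) (hk ▸ hdv)
    (hq2 ▸ hdvd) (by rw [← hq2, ← hd]; exact hbd)
  have hd4 : d = 4 := hd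
  subst hd4
  obtain ⟨g, hg, γ, hγ⟩ := hall rfl (frobeniusEquiv F 3)
  exact ⟨hq, peisert_case hq h hM (by simpa using hs) (by simpa using hk) hint
    ((memA1 g).mp hg).2 (γ := γ) (fun z => by rw [hγ]; rfl)⟩

end Pool.Agent.MP_f8e15f_co.H24
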